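import Pool.Agent.helper66.LE.Defs3
import Pool.Agent.helper73.LE.BX

/-!
# lg:C7  union bound
-/

open Finset Classical MeasureTheory Filter Topology

namespace Pool.Agent.helper66.LE

section C7
variable {q : ℝ}

theorem C7_mem_box {d n : ℕ} {x : Fin d → ℤ} : x ∈ box d n ↔ ∀ i, (x i).natAbs ≤ n := by
  unfold box
  rw [Fintype.mem_piFinset]
  refine forall_congr' fun i => ?_
  rw [Finset.mem_Icc]
  omega

theorem C7_inc_PTS {V : Type*} (E : Finset (Sym2 V)) (k : ℕ) (A B : Set V) :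
    Inc (fun F => PTS E F k A B) := by
  rintro F F' hF ⟨a, ha, b, hb, h⟩
  exact ⟨a, ha, b, hb, inc_PT E k a b F F' hF h⟩

theorem C7_card_box (d M : ℕ) : (box d M).card = (2 * M + 1) ^ d := by
  unfold box
  rw [Fintype.card_piFinset, Finset.prod_const, Finset.card_univ, Fintype.card_fin, Int.card_Icc]
  congr 1
  omega

theorem C7_embed {V W : Type*} {E : Finset (Sym2 V)} {E' : Finset (Sym2 W)} (φ : V → W)
    (hφ : Function.Injective φ) (hE : ∀ e ∈ E, Sym2.map φ e ∈ E')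
    {q : ℝ} (h0 : 0 ≤ q) (h1 : q ≤ 1) (k : ℕ) (A B : Set V) (A' B' : Set W)
    (hA : ∀ a ∈ A, φ a ∈ A') (hB : ∀ b ∈ B, φ b ∈ B') :
    Pr q E (fun F => PTS E F k A B) ≤ Pr q E' (fun F => PTS E' F k A' B') := by
  have hinj : Set.InjOn φ Set.univ := fun a _ b _ h => hφ h
  have hU : ∀ e ∈ E, ∀ a ∈ e, a ∈ (Set.univ : Set V) := fun _ _ _ _ => Set.mem_univ _
  have hE' : E.image (Sym2.map φ) ⊆ E' := by
    intro e he
    rw [Finset.mem_image] at he
    obtain ⟨e, he, rfl⟩ := he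
    exact hE e he
  refine Pr_le_of_map h0 h1 (Sym2.map φ) (BX_map_injOn hinj hU) ?_ _ _ (C7_inc_PTS _ _ _ _)
    fun F hF h => ?_
  · convert hE'
  · obtain ⟨a, ha, b, hb, hab⟩ := h
    refine ⟨φ a, hA a ha, φ b, hB b hb, ?_⟩
    convert PT_image φ hU hinj hF hE' hab

/-- translation of the small box -/
theorem C7_translate (h0 : 0 ≤ q) (h1 : q ≤ 1) (d k M R r s : ℕ) (hR : M + r ≤ R)
    (x : Fin d → ℤ) (hx : x ∈ box d M) (i : Fin d) (σ : Fin d → Bool) :
    Pr q (zE d (box d R)) (fun F => ¬ PTS (zE d (box d R)) F k {y | y - x ∈ box d s}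
      {y | y - x ∈ fq d r i σ}) ≤
    Pr q (zE d (box d r)) (fun F => ¬ PTS (zE d (box d r)) F k (box d s : Set (Fin d → ℤ))
      (fq d r i σ)) := by
  rw [Pr_not, Pr_not]
  refine sub_le_sub_left ?_ 1
  refine C7_embed (fun y => y + x) (fun a b h => add_right_cancel h) ?_ h0 h1 k _ _ _ _ ?_ ?_
  · intro e he
    obtain ⟨y, u, hy, hu, hyu, rfl⟩ := BX_mem_zE.1 he
    have hin : ∀ z ∈ box d r, z + x ∈ box d R := by
      intro z hz
      rw [C7_mem_box] at hz hx ⊢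
      intro j
      have g1 := hz j
      have g2 := hx j
      rw [Pi.add_apply]
      omega
    refine BX_mem_zE.2 ⟨y + x, u, hin y hy, hu, ?_, ?_⟩
    · have := hin _ hyu
      rwa [add_right_comm] at this
    · rw [Sym2.map_mk, add_right_comm]
  · intro a ha
    change a + x - x ∈ box d s
    rw [add_sub_cancel_right]
    exact Finset.mem_coe.1 ha
  · intro b hb
    change b + x - x ∈ fq d r i σ
    rw [add_sub_cancel_right]
    exact hb

set_option linter.unusedVariables false in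
/-- `δ` bounds the probability of failure of one piece at all the scales `2^j`, `j ∈ I`; `R` large. -/
theorem union_bad (h0 : 0 ≤ q) (h1 : q ≤ 1) (d k M R : ℕ) (I : Finset ℕ) (s : ℕ → ℕ) (δ : ℝ)
    (hR : ∀ j ∈ I, M + 2 ^ j ≤ R) (hs : ∀ j ∈ I, s j ≤ 2 ^ j)
    (hδ : ∀ j ∈ I, ∀ (i : Fin d) (σ : Fin d → Bool), Pr q (zE d (box d (2 ^ j))) (fun F =>
      ¬ PTS (zE d (box d (2 ^ j))) F k (box d (s j) : Set (Fin d → ℤ)) (fq d (2 ^ j) i σ)) ≤ δ) :
    Pr q (zE d (box d R)) (fun F => ¬ ∀ j ∈ I, ∀ x ∈ box d M, Stp (zE d (box d R)) F k (s j) (2 ^ j) x) ≤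
      I.card * (2 * M + 1) ^ d * (d * 2 ^ d) * δ := by
  set P : Finset (ℕ × (Fin d → ℤ) × Fin d × (Fin d → Bool)) :=
    I ×ˢ box d M ×ˢ (Finset.univ : Finset (Fin d)) ×ˢ (Finset.univ : Finset (Fin d → Bool)) with hP
  have step : Pr q (zE d (box d R)) (fun F =>
      ¬ ∀ j ∈ I, ∀ x ∈ box d M, Stp (zE d (box d R)) F k (s j) (2 ^ j) x) ≤
      Pr q (zE d (box d R)) (fun F => ∃ p ∈ P, ¬ PTS (zE d (box d R)) F k
        {y | y - p.2.1 ∈ box d (s p.1)} {y | y - p.2.1 ∈ fq d (2 ^ p.1) p.2.2.1 p.2.2.2}) := by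
    refine Pr_mono h0 h1 fun F _ h => ?_
    push Not at h
    obtain ⟨j, hj, x, hx, h⟩ := h
    unfold Stp at h
    push Not at h
    obtain ⟨i, σ, h⟩ := h
    refine ⟨(j, x, i, σ), ?_, h⟩
    rw [hP, Finset.mem_product, Finset.mem_product, Finset.mem_product]
    exact ⟨hj, hx, Finset.mem_univ _, Finset.mem_univ _⟩
  refine step.trans ((Pr_exists_le h0 h1 _ P _).trans ?_)
  have hle : ∀ p ∈ P, Pr q (zE d (box d R)) (fun F => ¬ PTS (zE d (box d R)) F k
        {y | y - p.2.1 ∈ box d (s p.1)} {y | y - p.2.1 ∈ fq d (2 ^ p.1) p.2.2.1 p.2.2.2}) ≤ δ := by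
    intro p hp
    rw [hP, Finset.mem_product, Finset.mem_product, Finset.mem_product] at hp
    exact (C7_translate h0 h1 d k M R (2 ^ p.1) (s p.1) (hR _ hp.1) p.2.1 hp.2.1 p.2.2.1
      p.2.2.2).trans (hδ _ hp.1 _ _)
  refine (Finset.sum_le_card_nsmul P _ δ hle).trans (le_of_eq ?_)
  rw [nsmul_eq_mul, hP, Finset.card_product, Finset.card_product, Finset.card_product, C7_card_box,
    Finset.card_univ, Finset.card_univ, Fintype.card_fin, Fintype.card_fun, Fintype.card_bool,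
    Fintype.card_fin]
  push_cast
  ring

end C7

end Pool.Agent.helper66.LE
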