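import Pool.Agent.helper66.LE.Defs3
import Pool.Agent.helper73.LE.BX

/-!
# lg:C8a  steering (deterministic): `straight` and `steer`
-/

open Finset Classical MeasureTheory Filter Topology

namespace Pool.Agent.helper66.LE

section C8
variable {d : ℕ}

theorem C8_mem_box {n : ℕ} {x : Fin d → ℤ} : x ∈ box d n ↔ ∀ i, |x i| ≤ n := by
  unfold box
  rw [Fintype.mem_piFinset]
  exact forall_congr' fun i => by rw [Finset.mem_Icc, abs_le]

theorem C8_mem_box' {n : ℕ} {x : Fin d → ℤ} : x ∈ box d n ↔ ∀ i, (x i).natAbs ≤ n := by
  rw [C8_mem_box]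
  exact forall_congr' fun i => by rw [Int.abs_eq_natAbs]; exact Int.ofNat_le

theorem C8_box_mono {n m : ℕ} (h : n ≤ m) {x : Fin d → ℤ} (hx : x ∈ box d n) : x ∈ box d m := by
  rw [C8_mem_box] at hx ⊢
  exact fun i => (hx i).trans (by exact_mod_cast h)

theorem C8_zE_mono {Λ Λ' : Finset (Fin d → ℤ)} (h : Λ ⊆ Λ') : zE d Λ ⊆ zE d Λ' := by
  intro e he
  rw [BX_mem_zE] at he ⊢
  obtain ⟨x, s, h1, h2, h3, h4⟩ := he
  exact ⟨x, s, h h1, h2, h h3, h4⟩

theorem C8_PT_le {V : Type*} {E F : Finset (Sym2 V)} {k k' : ℕ} {x y : V} (h : k ≤ k')
    (hP : PT E F k x y) : PT E F k' x y :=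
  PT_mono (Finset.Subset.refl _) (fun _ _ h => h) h hP

/-- one edge -/
theorem C8_edge {V : Type*} {E F : Finset (Sym2 V)} {x y : V} (hxy : x ≠ y) (h : s(x, y) ∈ E) :
    PT E F 1 x y := by
  have ha : (SimpleGraph.fromEdgeSet (E : Set (Sym2 V))).Adj x y := by
    rw [SimpleGraph.fromEdgeSet_adj]
    exact ⟨by exact_mod_cast h, hxy⟩
  refine ⟨SimpleGraph.Walk.cons ha SimpleGraph.Walk.nil, ?_⟩
  refine List.countP_le_length.trans ?_
  simp

/-- a segment in the coordinate direction `i` -/
theorem C8_line {E F : Finset (Sym2 (Fin d → ℤ))} {M : ℕ} (hE : zE d (box d M) ⊆ E) (i : Fin d)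
    (n : ℕ) : ∀ {x : Fin d → ℤ} {b : ℤ}, x ∈ box d M → |b| ≤ M → (b - x i).natAbs = n →
      PT E F n x (Function.update x i b) := by
  induction n with
  | zero =>
    intro x b _ _ h
    rw [Int.natAbs_eq_zero, sub_eq_zero] at h
    rw [h, Function.update_eq_self]
    exact TK_refl _ _ _ _
  | succ n ih =>
    intro x b hx hb h
    have hxb := C8_mem_box.1 hx i
    -- one step
    obtain ⟨ε, hε, hε2⟩ : ∃ ε : Bool, (b - (x i + (if ε then 1 else -1))).natAbs = n ∧
        |x i + (if ε then 1 else -1)| ≤ (M : ℤ) := by
      by_cases hlt : x i < b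
      · refine ⟨true, ?_, ?_⟩
        · rw [if_pos rfl]; omega
        · rw [if_pos rfl]
          rw [abs_le] at hxb hb ⊢
          constructor <;> omega
      · refine ⟨false, ?_, ?_⟩
        · simp only [Bool.false_eq_true, if_false]; omega
        · simp only [Bool.false_eq_true, if_false]
          rw [abs_le] at hxb hb ⊢
          constructor <;> omega
    set u : Fin d → ℤ := Pi.single i (if ε then (1 : ℤ) else -1) with hu
    have hxu : x + u = Function.update x i (x i + (if ε then 1 else -1)) := by
      funext j
      by_cases hj : j = i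
      · subst hj
        rw [Pi.add_apply, hu, Pi.single_eq_same, Function.update_self]
      · rw [Pi.add_apply, hu, Pi.single_eq_of_ne hj, Function.update_of_ne hj, add_zero]
    have hmem : x + u ∈ box d M := by
      rw [C8_mem_box]
      intro j
      rw [hxu]
      by_cases hj : j = i
      · subst hj
        rw [Function.update_self]
        exact hε2
      · rw [Function.update_of_ne hj]
        exact C8_mem_box.1 hx j
    have hue : s(x, x + u) ∈ E := hE (BX_mem_zE.2 ⟨x, u, hx, BX_mem_uv.2 ⟨i, ε, rfl⟩, hmem, rfl⟩)
    have hne : x ≠ x + u := by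
      intro h
      have h1 := congrFun h i
      rw [hxu, Function.update_self] at h1
      cases ε <;> simp at h1
    have p1 : PT E F 1 x (x + u) := C8_edge hne hue
    have p2 := ih (x := x + u) (b := b) hmem hb (by
      rw [hxu, Function.update_self]
      exact hε)
    have e : Function.update (x + u) i b = Function.update x i b := by
      rw [hxu, Function.update_idem]
    rw [e] at p2
    have := PT_trans p1 p2
    rwa [add_comm] at this

/-- straight paths. -/
theorem straight {E F : Finset (Sym2 (Fin d → ℤ))} {M m : ℕ} (hE : zE d (box d M) ⊆ E) {x y : Fin d → ℤ}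
    (hx : x ∈ box d M) (hy : y ∈ box d M) (hxy : y - x ∈ box d m) : PT E F (d * m) x y := by
  have key : ∀ S : Finset (Fin d), PT E F (S.card * m) x (fun j => if j ∈ S then y j else x j) := by
    intro S
    induction S using Finset.induction_on with
    | empty =>
      simp only [Finset.notMem_empty, if_false]
      exact TK_refl _ _ _ _
    | insert i S hi ih =>
      have hmem : (fun j => if j ∈ S then y j else x j) ∈ box d M := by
        rw [C8_mem_box] at hx hy ⊢
        intro j
        by_cases hj : j ∈ S
        · rw [if_pos hj]; exact hy j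
        · rw [if_neg hj]; exact hx j
      have p2 := C8_line (F := F) hE i (y i - (fun j => if j ∈ S then y j else x j) i).natAbs hmem
        (C8_mem_box.1 hy i) rfl
      have e : Function.update (fun j => if j ∈ S then y j else x j) i (y i) =
          fun j => if j ∈ insert i S then y j else x j := by
        funext j
        by_cases hj : j = i
        · subst hj
          simp
        · rw [Function.update_of_ne hj]
          simp [Finset.mem_insert, hj]
      rw [e] at p2
      have hle : (y i - (fun j => if j ∈ S then y j else x j) i).natAbs ≤ m := by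
        simp only [hi, if_false]
        have := C8_mem_box'.1 hxy i
        rw [Pi.sub_apply] at this
        exact this
      rw [Finset.card_insert_of_notMem hi, Nat.succ_mul]
      exact C8_PT_le (Nat.add_le_add_left hle _) (PT_trans ih p2)
  have := key Finset.univ
  simpa using this

/-- One travels from `x` to `y` by steps of size `r`: each step goes to a neighbouring good point (cost `K₁`),
then to the right piece of the boundary (cost `k`); the last hop of size at most `r` costs `K₂`. -/
theorem steer {E F : Finset (Sym2 (Fin d → ℤ))} (hF : F ⊆ E) {r s k K₁ K₂ M M' B n : ℕ} (hr : 1 ≤ r) (hB : r ≤ B)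
    (hM : M' + B ≤ M) (hS : ∀ z ∈ box d M, Stp E F k s r z)
    (h₁ : ∀ z ∈ box d M, ∀ v, v - z ∈ box d s → PT E F K₁ z v)
    (h₂ : ∀ z ∈ box d M, ∀ y ∈ box d M, y - z ∈ box d r → PT E F K₂ z y)
    {x y : Fin d → ℤ} (hy : y ∈ box d M') (hxy : y - x ∈ box d B)
    (hn : ∑ j, ((y j - x j).natAbs - 1) / r ≤ n) : PT E F (n * (K₁ + k) + K₂) x y := by
  have hin : ∀ z : Fin d → ℤ, y - z ∈ box d B → z ∈ box d M := by
    intro z hz
    rw [C8_mem_box] at hz hy ⊢
    intro i
    have h1 := hz i
    have h2 := hy i
    rw [Pi.sub_apply] at h1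
    rw [abs_le] at h1 h2 ⊢
    constructor <;> omega
  have hyM : y ∈ box d M := C8_box_mono (by omega) hy
  clear hF
  induction n generalizing x with
  | zero =>
    have hxM := hin x hxy
    have hsmall : y - x ∈ box d r := by
      rw [C8_mem_box']
      intro i
      have h0 : ((y i - x i).natAbs - 1) / r = 0 := by
        have h1 : ((y i - x i).natAbs - 1) / r ≤ ∑ j, ((y j - x j).natAbs - 1) / r :=
          Finset.single_le_sum (f := fun j => ((y j - x j).natAbs - 1) / r)
          (fun _ _ => Nat.zero_le _) (Finset.mem_univ i)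
        exact Nat.le_zero.1 (h1.trans hn)
      rw [Nat.div_eq_zero_iff] at h0
      rw [Pi.sub_apply]
      omega
    exact C8_PT_le (by omega) (h₂ x hxM y hyM hsmall)
  | succ n ih =>
    have hxM := hin x hxy
    by_cases hsmall : ∀ i, (y i - x i).natAbs ≤ r
    · have : y - x ∈ box d r := C8_mem_box'.2 hsmall
      exact C8_PT_le (by omega) (h₂ x hxM y hyM this)
    · push Not at hsmall
      obtain ⟨i, hi⟩ := hsmall
      set σ : Fin d → Bool := fun j => decide (0 ≤ y j - x j) with hσ
      obtain ⟨v, hv, z, hz, hvz⟩ := hS x hxM i σ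
      obtain ⟨hz1, hz2⟩ := hz
      change v - x ∈ box d s at hv
      have p1 : PT E F (K₁ + k) x z := PT_trans (h₁ x hxM v hv) hvz
      -- the new displacement
      have hsg : ∀ j, (0 ≤ y j - x j ∧ sgn (σ j) = 1) ∨ (y j - x j < 0 ∧ sgn (σ j) = -1) := by
        intro j
        by_cases h : 0 ≤ y j - x j
        · left
          refine ⟨h, ?_⟩
          have : σ j = true := by rw [hσ]; exact decide_eq_true h
          rw [this]; rfl
        · right
          refine ⟨by omega, ?_⟩
          have : σ j = false := by rw [hσ]; exact decide_eq_false h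
          rw [this]; rfl
      have hnew : ∀ j, (y j - z j).natAbs ≤ (y j - x j).natAbs ∨ (y j - z j).natAbs ≤ r := by
        intro j
        have h1 := hz2 j
        rw [Pi.sub_apply] at h1
        rcases hsg j with ⟨h2, h3⟩ | ⟨h2, h3⟩
        · rw [h3] at h1
          omega
        · rw [h3] at h1
          omega
      have hnewi : (y i - z i).natAbs + r = (y i - x i).natAbs := by
        rw [Pi.sub_apply] at hz1
        rcases hsg i with ⟨h2, h3⟩ | ⟨h2, h3⟩
        · rw [h3] at hz1
          omega
        · rw [h3] at hz1
          omega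
      have hpot : ∑ j, ((y j - z j).natAbs - 1) / r ≤ n := by
        have hlt : ∑ j, ((y j - z j).natAbs - 1) / r < ∑ j, ((y j - x j).natAbs - 1) / r := by
          refine Finset.sum_lt_sum (fun j _ => ?_) ⟨i, Finset.mem_univ _, ?_⟩
          · rcases hnew j with h | h
            · exact Nat.div_le_div_right (by omega)
            · have : ((y j - z j).natAbs - 1) / r = 0 := by
                rw [Nat.div_eq_zero_iff]
                omega
              rw [this]
              exact Nat.zero_le _
          · have h1 : (y i - x i).natAbs - 1 = ((y i - z i).natAbs - 1) + r := by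
              omega
            rw [h1, Nat.add_div_right _ (by omega)]
            exact Nat.lt_succ_self _
        omega
      have hB' : y - z ∈ box d B := by
        rw [C8_mem_box'] at hxy ⊢
        intro j
        have h1 := hxy j
        rw [Pi.sub_apply] at h1 ⊢
        rcases hnew j with h | h
        · omega
        · omega
      have p2 := ih hB' hpot
      have p3 := PT_trans p1 p2
      refine C8_PT_le (le_of_eq ?_) p3
      rw [Nat.succ_mul]
      ring

end C8

end Pool.Agent.helper66.LE
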