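import Pool.Agent.helper2.LE.C8a

/-!
# lg:C8b  the recursion over the scales
-/

open Finset Classical MeasureTheory Filter Topology

namespace Pool.Agent.helper66.LE

section C8
variable {d : ℕ}

theorem C8_hopK_zero (d j₀ k : ℕ) : hopK d j₀ k 0 = d := by
  rw [hopK]

theorem C8_hopK_succ (d j₀ k j : ℕ) : hopK d j₀ k (j + 1) =
    if j + 1 ≤ j₀ then d * 2 ^ (j + 1) else hopK d j₀ k j + d * (hopK d j₀ k (j / 2) + k) := by
  rw [hopK]

/-- the recursion over the scales `2^j`, `j ≤ J + 1`, with `s_j = 2^(j/2)`. -/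
theorem hop_all {F : Finset (Sym2 (Fin d → ℤ))} {k j₀ J N R : ℕ} (hj₀ : 1 ≤ j₀)
    (hF : F ⊆ zE d (box d R)) (hR : N + 2 ^ (J + 3) ≤ R)
    (hS : ∀ j, j₀ ≤ j → j ≤ J → ∀ z ∈ box d (N + 2 ^ (J + 2)), Stp (zE d (box d R)) F k (2 ^ (j / 2)) (2 ^ j) z) :
    ∀ j ≤ J + 1, ∀ x ∈ box d (N + (2 ^ (J + 2) - 2 ^ (j + 1))), ∀ y ∈ box d (N + (2 ^ (J + 2) - 2 ^ (j + 1))),
      y - x ∈ box d (2 ^ j) → PT (zE d (box d R)) F (hopK d j₀ k j) x y := by
  intro j
  induction j using Nat.strong_induction_on with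
  | _ j ih =>
    intro hj x hx y hy hxy
    have hMR : N + (2 ^ (J + 2) - 2 ^ (j + 1)) ≤ R := by
      have h1 : 2 ^ (J + 2) ≤ 2 ^ (J + 3) := Nat.pow_le_pow_right (by norm_num) (by omega)
      have h2 : 2 ^ (J + 2) - 2 ^ (j + 1) ≤ 2 ^ (J + 2) := Nat.sub_le _ _
      exact le_trans (Nat.add_le_add_left (h2.trans h1) N) hR
    have hsub : zE d (box d (N + (2 ^ (J + 2) - 2 ^ (j + 1)))) ⊆ zE d (box d R) :=
      C8_zE_mono fun z hz => C8_box_mono hMR hz
    rcases j with _ | j
    · rw [C8_hopK_zero]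
      have := straight (F := F) hsub hx hy hxy
      simpa using this
    · rw [C8_hopK_succ]
      split_ifs with hjj
      · exact straight hsub hx hy hxy
      · have hj0 : j₀ ≤ j := by omega
        have hjJ : j ≤ J := by omega
        have e1 : 2 ^ (j + 1) = 2 * 2 ^ j := by rw [pow_succ]; ring
        have e2 : 2 ^ (j + 1 + 1) = 4 * 2 ^ j := by rw [pow_succ, pow_succ]; ring
        have e3 : 4 * 2 ^ j ≤ 2 ^ (J + 2) := by
          rw [← e2]
          exact Nat.pow_le_pow_right (by norm_num) (by omega)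
        have e4 : 2 ^ (j / 2 + 1) = 2 * 2 ^ (j / 2) := by rw [pow_succ]; ring
        have e5 : 3 * 2 ^ (j / 2) ≤ 2 * 2 ^ j := by
          have h1 : j / 2 ≤ j - 1 := by omega
          have h2 : 2 ^ (j / 2) ≤ 2 ^ (j - 1) := Nat.pow_le_pow_right (by norm_num) h1
          have h3 : 2 ^ j = 2 * 2 ^ (j - 1) := by
            rw [← pow_succ']
            congr 1
            omega
          omega
        have key := steer (d := d) (E := zE d (box d R)) (F := F) hF (r := 2 ^ j) (s := 2 ^ (j / 2))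
          (k := k) (K₁ := hopK d j₀ k (j / 2)) (K₂ := hopK d j₀ k j)
          (M := N + (2 ^ (J + 2) - 2 ^ (j + 1))) (M' := N + (2 ^ (J + 2) - 2 ^ (j + 1 + 1)))
          (B := 2 ^ (j + 1)) (n := d) (Nat.one_le_two_pow) (by omega) (by omega)
          (fun z hz => hS j hj0 hjJ z (C8_box_mono (by omega) hz))
          (fun z hz v hv => by
            refine ih (j / 2) (by omega) (by omega) z (C8_box_mono ?_ hz) v ?_ hv
            · omega
            · rw [C8_mem_box'] at hz hv ⊢
              intro i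
              have h1 := hz i
              have h2 := hv i
              rw [Pi.sub_apply] at h2
              have h3 : N + (2 ^ (J + 2) - 2 ^ (j + 1)) + 2 ^ (j / 2) ≤
                N + (2 ^ (J + 2) - 2 ^ (j / 2 + 1)) := by omega
              generalize N + (2 ^ (J + 2) - 2 ^ (j + 1)) = P at *
              generalize N + (2 ^ (J + 2) - 2 ^ (j / 2 + 1)) = P' at *
              generalize 2 ^ (j / 2) = P'' at *
              omega)
          (fun z hz w hw hzw => ih j (by omega) (by omega) z hz w hw hzw)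
          hy hxy ?_
        · refine C8_PT_le (le_of_eq ?_) key
          ring
        · calc ∑ i, ((y i - x i).natAbs - 1) / 2 ^ j ≤ ∑ _i : Fin d, 1 := by
                refine Finset.sum_le_sum fun i _ => ?_
                have h1 := C8_mem_box'.1 hxy i
                rw [Pi.sub_apply] at h1
                have h2 : (y i - x i).natAbs - 1 < 2 * 2 ^ j := by
                  have : 0 < 2 ^ j := Nat.pos_of_ne_zero (by positivity)
                  omega
                have h3 : ((y i - x i).natAbs - 1) / 2 ^ j < 2 :=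
                  Nat.div_lt_of_lt_mul (by rwa [mul_comm])
                omega
            _ = d := by simp

/-- conclusion: the passage time from `0` to `n e₁`. -/
theorem hop_far [NeZero d] {F : Finset (Sym2 (Fin d → ℤ))} {k j₀ J n R : ℕ} (hj₀ : 1 ≤ j₀) (hJ : j₀ ≤ J) (hn : 2 ^ J ≤ n)
    (hF : F ⊆ zE d (box d R)) (hR : 2 * n + 2 ^ (J + 3) ≤ R)
    (hS : ∀ j, j₀ ≤ j → j ≤ J → ∀ z ∈ box d (2 * n + 2 ^ (J + 2)),
      Stp (zE d (box d R)) F k (2 ^ (j / 2)) (2 ^ j) z) :
    PT (zE d (box d R)) F (n / 2 ^ J * (hopK d j₀ k (J / 2) + k) + d * 2 ^ J) 0 (Pi.single 0 (n : ℤ)) := by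
  have hall := hop_all hj₀ hF hR hS
  have e0 : 1 ≤ 2 ^ J := Nat.one_le_two_pow
  have e1 : 2 ^ (J + 2) = 4 * 2 ^ J := by rw [pow_succ, pow_succ]; ring
  have e2 : 2 ^ (J / 2 + 1) = 2 * 2 ^ (J / 2) := by rw [pow_succ]; ring
  have e3 : 2 ^ (J / 2) ≤ 2 ^ J := Nat.pow_le_pow_right (by norm_num) (by omega)
  have hsingle : ∀ i : Fin d, ((Pi.single 0 (n : ℤ) : Fin d → ℤ) i).natAbs ≤ n := by
    intro i
    by_cases hi : i = 0
    · subst hi
      rw [Pi.single_eq_same, Int.natAbs_natCast]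
    · rw [Pi.single_eq_of_ne hi]
      simp
  have hmem : (Pi.single 0 (n : ℤ) : Fin d → ℤ) ∈ box d n := C8_mem_box'.2 hsingle
  refine steer (d := d) (E := zE d (box d R)) (F := F) hF (r := 2 ^ J) (s := 2 ^ (J / 2))
    (k := k) (K₁ := hopK d j₀ k (J / 2)) (K₂ := d * 2 ^ J)
    (M := 2 * n) (M' := n) (B := n) (n := n / 2 ^ J) e0 hn (by omega)
    (fun z hz => hS J hJ (le_refl J) z (C8_box_mono (by omega) hz))
    (fun z hz v hv => ?_)
    (fun z hz w hw hzw => ?_)
    hmem (by rw [sub_zero]; exact hmem) ?_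
  · refine hall (J / 2) (by omega) z (C8_box_mono (by omega) hz) v ?_ hv
    rw [C8_mem_box'] at hz hv ⊢
    intro i
    have h1 := hz i
    have h2 := hv i
    rw [Pi.sub_apply] at h2
    have h3 : 2 * n + 2 ^ (J / 2) ≤ 2 * n + (2 ^ (J + 2) - 2 ^ (J / 2 + 1)) := by omega
    generalize 2 * n + (2 ^ (J + 2) - 2 ^ (J / 2 + 1)) = P' at *
    generalize 2 ^ (J / 2) = P'' at *
    omega
  · have hsub : zE d (box d (2 * n)) ⊆ zE d (box d R) :=
      C8_zE_mono fun z hz => C8_box_mono ((Nat.le_add_right _ _).trans hR) hz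
    exact straight hsub hz hw hzw
  · rw [Finset.sum_eq_single (0 : Fin d)]
    · rw [Pi.single_eq_same, Pi.zero_apply, sub_zero, Int.natAbs_natCast]
      exact Nat.div_le_div_right (Nat.sub_le _ _)
    · intro i _ hi
      rw [Pi.single_eq_of_ne hi, Pi.zero_apply, sub_zero]
      simp
    · intro h
      exact absurd (Finset.mem_univ _) h

end C8

end Pool.Agent.helper66.LE
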