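import Pool.Agent.helper66.LE.Defs3

/-!
# lg:C9a  the recursion `hopK` grows slower than every exponential
-/

open Finset Classical MeasureTheory Filter Topology

namespace Pool.Agent.helper66.LE

section C9

theorem C9a_zero (d j₀ k : ℕ) : hopK d j₀ k 0 = d := by
  rw [hopK]

theorem C9a_succ (d j₀ k j : ℕ) : hopK d j₀ k (j + 1) =
    if j + 1 ≤ j₀ then d * 2 ^ (j + 1) else hopK d j₀ k j + d * (hopK d j₀ k (j / 2) + k) := by
  rw [hopK]

/-- one step of the recursion -/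
theorem C9a_step (d j₀ k j : ℕ) : hopK d j₀ k (j + 1) ≤
    hopK d j₀ k j + d * hopK d j₀ k (j / 2) + d * 2 ^ j₀ * (k + 1) := by
  rw [C9a_succ]
  split_ifs with h
  · have h1 : d * 2 ^ (j + 1) ≤ d * 2 ^ j₀ :=
      Nat.mul_le_mul_left _ (Nat.pow_le_pow_right (by norm_num) h)
    have h2 : d * 2 ^ j₀ ≤ d * 2 ^ j₀ * (k + 1) := Nat.le_mul_of_pos_right _ (Nat.succ_pos k)
    omega
  · have h1 : d * k ≤ d * 2 ^ j₀ * (k + 1) := by
      have : 1 ≤ 2 ^ j₀ := Nat.one_le_two_pow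
      calc d * k ≤ d * 2 ^ j₀ * k := by
            rw [mul_assoc]
            exact Nat.mul_le_mul_left _ (Nat.le_mul_of_pos_left _ this)
        _ ≤ _ := Nat.mul_le_mul_left _ (Nat.le_succ k)
    rw [Nat.mul_add]
    omega

/-- crude bound for finitely many values -/
theorem C9a_crude (d j₀ : ℕ) (J : ℕ) : ∃ D : ℕ, ∀ j ≤ J, ∀ k, hopK d j₀ k j ≤ D * (k + 1) := by
  induction J with
  | zero =>
    refine ⟨d, fun j hj k => ?_⟩
    obtain rfl : j = 0 := by omega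
    rw [C9a_zero]
    exact Nat.le_mul_of_pos_right _ (Nat.succ_pos k)
  | succ J ih =>
    obtain ⟨D, hD⟩ := ih
    refine ⟨D + d * D + d * 2 ^ j₀, fun j hj k => ?_⟩
    by_cases h : j ≤ J
    · refine (hD j h k).trans (Nat.mul_le_mul_right _ ?_)
      omega
    · obtain rfl : j = J + 1 := by omega
      refine (C9a_step d j₀ k J).trans ?_
      have h1 := hD J (le_refl J) k
      have h2 := hD (J / 2) (Nat.div_le_self _ _) k
      have h3 := Nat.mul_le_mul_left d h2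
      calc _ ≤ D * (k + 1) + d * (D * (k + 1)) + d * 2 ^ j₀ * (k + 1) := by omega
        _ = _ := by ring

theorem C9a_main (d j₀ : ℕ) {lam : ℝ} (hlam : 1 < lam) : ∃ C : ℝ, 0 < C ∧ ∀ k j : ℕ,
    (hopK d j₀ k j : ℝ) ≤ C * ((k : ℝ) + 1) * lam ^ j := by
  obtain ⟨n₁, hn₁⟩ := pow_unbounded_of_one_lt (((d : ℝ) + 1) / (lam - 1)) hlam
  have hl0 : 0 < lam - 1 := by linarith
  have hlam0 : 0 < lam := by linarith
  have hn : (d : ℝ) + 1 ≤ (lam - 1) * lam ^ n₁ := by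
    rw [div_lt_iff₀ hl0] at hn₁
    linarith
  obtain ⟨D, hD⟩ := C9a_crude d j₀ (2 * n₁)
  set C : ℝ := D + d * 2 ^ j₀ + 1 with hC
  have hC0 : 0 < C := by positivity
  refine ⟨C, hC0, fun k j => ?_⟩
  have hk : (0 : ℝ) ≤ (k : ℝ) + 1 := by positivity
  induction j using Nat.strong_induction_on with
  | _ j ih =>
    by_cases hj : j ≤ 2 * n₁
    · have h1 : (hopK d j₀ k j : ℝ) ≤ D * ((k : ℝ) + 1) := by exact_mod_cast hD j hj k
      have h2 : (D : ℝ) * ((k : ℝ) + 1) ≤ C * ((k : ℝ) + 1) := by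
        refine mul_le_mul_of_nonneg_right ?_ hk
        rw [hC]
        have : (0 : ℝ) ≤ d * 2 ^ j₀ := by positivity
        linarith
      have h3 : (1 : ℝ) ≤ lam ^ j := one_le_pow₀ hlam.le
      calc _ ≤ _ := h1
        _ ≤ _ := h2
        _ ≤ _ := le_mul_of_one_le_right (mul_nonneg hC0.le hk) h3
    · obtain ⟨i, rfl⟩ : ∃ i, j = i + 1 := ⟨j - 1, by omega⟩
      have hi : n₁ ≤ i / 2 := by omega
      have h1 := ih i (by omega)
      have h2 := ih (i / 2) (by omega)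
      have h3 : (hopK d j₀ k (i + 1) : ℝ) ≤ hopK d j₀ k i + d * hopK d j₀ k (i / 2) +
          d * 2 ^ j₀ * ((k : ℝ) + 1) := by exact_mod_cast C9a_step d j₀ k i
      have h4 : (d : ℝ) * hopK d j₀ k (i / 2) ≤ d * (C * ((k : ℝ) + 1) * lam ^ (i / 2)) :=
        mul_le_mul_of_nonneg_left h2 (Nat.cast_nonneg _)
      have h5 : (d : ℝ) * 2 ^ j₀ * ((k : ℝ) + 1) ≤ C * ((k : ℝ) + 1) := by
        refine mul_le_mul_of_nonneg_right ?_ hk
        rw [hC]
        have : (0 : ℝ) ≤ D := Nat.cast_nonneg _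
        linarith
      -- `(lam - 1) lam^i ≥ d lam^(i/2) + 1`
      have h6 : (d : ℝ) * lam ^ (i / 2) + 1 ≤ (lam - 1) * lam ^ i := by
        have g1 : lam ^ n₁ ≤ lam ^ (i / 2) := pow_le_pow_right₀ hlam.le hi
        have g2 : lam ^ (i / 2) * lam ^ (i / 2) ≤ lam ^ i := by
          rw [← pow_add]
          exact pow_le_pow_right₀ hlam.le (by omega)
        have g3 : (1 : ℝ) ≤ lam ^ (i / 2) := one_le_pow₀ hlam.le
        have g4 : (d : ℝ) + 1 ≤ (lam - 1) * lam ^ (i / 2) :=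
          hn.trans (mul_le_mul_of_nonneg_left g1 hl0.le)
        calc (d : ℝ) * lam ^ (i / 2) + 1 ≤ ((d : ℝ) + 1) * lam ^ (i / 2) := by linarith
          _ ≤ ((lam - 1) * lam ^ (i / 2)) * lam ^ (i / 2) :=
              mul_le_mul_of_nonneg_right g4 (by positivity)
          _ = (lam - 1) * (lam ^ (i / 2) * lam ^ (i / 2)) := by ring
          _ ≤ _ := mul_le_mul_of_nonneg_left g2 hl0.le
      have h7 : C * ((k : ℝ) + 1) * ((d : ℝ) * lam ^ (i / 2) + 1) ≤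
          C * ((k : ℝ) + 1) * ((lam - 1) * lam ^ i) :=
        mul_le_mul_of_nonneg_left h6 (mul_nonneg hC0.le hk)
      calc (hopK d j₀ k (i + 1) : ℝ) ≤ C * ((k : ℝ) + 1) * lam ^ i +
            d * (C * ((k : ℝ) + 1) * lam ^ (i / 2)) + C * ((k : ℝ) + 1) := by linarith
        _ = C * ((k : ℝ) + 1) * lam ^ i + C * ((k : ℝ) + 1) * ((d : ℝ) * lam ^ (i / 2) + 1) := by
            ring
        _ ≤ C * ((k : ℝ) + 1) * lam ^ i + C * ((k : ℝ) + 1) * ((lam - 1) * lam ^ i) := by linarith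
        _ = _ := by rw [pow_succ]; ring

theorem hopK_le (d j₀ : ℕ) {η : ℝ} (hη : 0 < η) : ∃ (C : ℝ) (m : ℕ), 0 < C ∧ ∀ k j : ℕ,
    (hopK d j₀ k j : ℝ) ≤ C * ((k : ℝ) + j + 1) ^ m * (2 : ℝ) ^ (η * j) := by
  obtain ⟨C, hC, h⟩ := C9a_main d j₀ (lam := (2 : ℝ) ^ η)
    (Real.one_lt_rpow (by norm_num) hη)
  refine ⟨C, 1, hC, fun k j => ?_⟩
  have e : (2 : ℝ) ^ (η * j) = ((2 : ℝ) ^ η) ^ j := by
    rw [Real.rpow_mul (by norm_num), Real.rpow_natCast]
  rw [e, pow_one]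
  refine (h k j).trans (mul_le_mul_of_nonneg_right ?_ (by positivity))
  refine mul_le_mul_of_nonneg_left ?_ hC.le
  have : (0 : ℝ) ≤ j := Nat.cast_nonneg _
  linarith

end C9

end Pool.Agent.helper66.LE
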