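import Pool.Agent.helper64.LE.Base
import Pool.Agent.helper20.LE.DP

set_option autoImplicit false

open Finset Classical

namespace Pool.Agent.helper66.LE

section D

variable {V : Type} [Fintype V] [DecidableEq V] {T Q : Matrix V V ℝ} {ρ : V → V → ℝ} {B δ W : ℝ}

theorem DE_pow_succ (n : ℕ) (a b : V) : ∑ x, (T ^ n) a x * T x b = (T ^ (n + 1)) a b := by
  rw [pow_succ, Matrix.mul_apply]

theorem DE_pow_succ' (n : ℕ) (a b : V) : ∑ x, T a x * (T ^ n) x b = (T ^ (n + 1)) a b := by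
  rw [pow_succ', Matrix.mul_apply]

theorem DE_sq (a b : V) : ∑ x, T a x * T x b = (T ^ 2) a b := by
  have := DE_pow_succ' (T := T) 1 a b
  simpa using this

theorem DE_le_pow (h : Hyp T Q ρ B δ W) {n : ℕ} (hn : 1 ≤ n) (x y : V) : T x y ≤ (T ^ n) x y := by
  have := (h.pow_le hn x y).2.1
  simpa using this

theorem DE_sq_rho (h : Hyp T Q ρ B δ W) (x y z : V) :
    ρ x z ^ 2 ≤ 2 * ρ x y ^ 2 + 2 * ρ y z ^ 2 := by
  have h1 := h.ρt x y z
  have h2 := h.ρ0 x z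
  nlinarith [sq_nonneg (ρ x y - ρ y z), h.ρ0 x y, h.ρ0 y z]

/-- DE: the weight on the last block -/
theorem Hyp.weight_last (h : Hyp T Q ρ B δ W) {M : V → V → ℝ} {c β : ℝ} (hM : LF T M c β)
    (hc : 0 ≤ c) (hβ : 0 ≤ β) :
    ∑ v, ∑ a, ∑ x, M v a * ρ v x ^ 2 * EE T v a x ≤
      Fintype.card V * (2 * (B * c + β) * W) := by
  have hB0 : 0 ≤ B := zero_le_one.trans h.B1
  set F₁ : V → V → V → V → ℝ := fun v a x t =>
    M v a * ρ v t ^ 2 * (T v t * T t a * T a x * T t x) with hF₁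
  set F₂ : V → V → V → V → ℝ := fun v a x t =>
    M v a * ρ t x ^ 2 * (T v t * T t a * T a x * T t x) with hF₂
  have hT4 : ∀ v t a x, 0 ≤ T v t * T t a * T a x * T t x := fun v t a x =>
    mul_nonneg (mul_nonneg (mul_nonneg (h.T0 _ _) (h.T0 _ _)) (h.T0 _ _)) (h.T0 _ _)
  have step : ∑ v, ∑ a, ∑ x, M v a * ρ v x ^ 2 * EE T v a x ≤
      2 * (∑ v, ∑ a, ∑ x, ∑ t, F₁ v a x t) + 2 * (∑ v, ∑ a, ∑ x, ∑ t, F₂ v a x t) := by
    simp only [Finset.mul_sum, ← Finset.sum_add_distrib, EE]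
    refine Finset.sum_le_sum fun v _ => Finset.sum_le_sum fun a _ => Finset.sum_le_sum fun x _ =>
      Finset.sum_le_sum fun t _ => ?_
    have h1 := DE_sq_rho h v t x
    have h2 := mul_nonneg (hM.M0 v a) (hT4 v t a x)
    simp only [hF₁, hF₂]
    nlinarith [mul_le_mul_of_nonneg_right h1 h2]
  have bd1 : ∑ v, ∑ a, ∑ x, ∑ t, F₁ v a x t ≤
      ∑ v, ∑ t, (c * B) * (ρ v t ^ 2 * ((T ^ 8) v t) ^ 2) := by
    refine Finset.sum_le_sum fun v _ => ?_
    have e1 : ∑ a, ∑ x, ∑ t, F₁ v a x t = ∑ t, ∑ a, ∑ x, F₁ v a x t := by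
      calc _ = ∑ a, ∑ t, ∑ x, F₁ v a x t := Finset.sum_congr rfl fun a _ => Finset.sum_comm
        _ = _ := Finset.sum_comm
    rw [e1]
    refine Finset.sum_le_sum fun t _ => ?_
    have e2 : ∑ a, ∑ x, F₁ v a x t =
        ρ v t ^ 2 * T v t * ∑ a, M v a * T a t * ∑ x, T a x * T x t := by
      simp only [Finset.mul_sum, hF₁]
      refine Finset.sum_congr rfl fun a _ => Finset.sum_congr rfl fun x _ => ?_
      rw [h.Ts t a, h.Ts t x]
      ring
    have e3 : ∑ a, M v a * T a t * ∑ x, T a x * T x t ≤ c * B * (T ^ 5) v t := by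
      rw [← DE_pow_succ 4 v t, Finset.mul_sum]
      refine Finset.sum_le_sum fun a _ => ?_
      rw [DE_sq]
      have g1 : (T ^ 2) a t ≤ B := ((h.pow_le (by norm_num : 2 ≤ 8) a t).2.1).trans (h.hB a t)
      have g2 : 0 ≤ (T ^ 2) a t := (h.pow_le (le_refl 2) a t).1
      calc M v a * T a t * (T ^ 2) a t ≤ (c * (T ^ 4) v a) * T a t * B :=
            mul_le_mul (mul_le_mul_of_nonneg_right (hM.Mc v a) (h.T0 _ _)) g1 g2
              (mul_nonneg (mul_nonneg hc (h.pow_le (le_refl 4) v a).1) (h.T0 _ _))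
        _ = _ := by ring
    rw [e2]
    have g3 : T v t ≤ (T ^ 8) v t := DE_le_pow h (by norm_num) v t
    have g4 : (T ^ 5) v t ≤ (T ^ 8) v t := (h.pow_le (by norm_num) v t).2.1
    have g5 : 0 ≤ (T ^ 5) v t := (h.pow_le (le_refl 5) v t).1
    have g6 : 0 ≤ (T ^ 8) v t := (h.pow_le (le_refl 8) v t).1
    calc ρ v t ^ 2 * T v t * ∑ a, M v a * T a t * ∑ x, T a x * T x t
        ≤ ρ v t ^ 2 * T v t * (c * B * (T ^ 5) v t) :=
          mul_le_mul_of_nonneg_left e3 (mul_nonneg (sq_nonneg _) (h.T0 _ _))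
      _ = (c * B) * (ρ v t ^ 2 * (T v t * (T ^ 5) v t)) := by ring
      _ ≤ (c * B) * (ρ v t ^ 2 * ((T ^ 8) v t * (T ^ 8) v t)) := by
          refine mul_le_mul_of_nonneg_left ?_ (mul_nonneg hc hB0)
          exact mul_le_mul_of_nonneg_left (mul_le_mul g3 g4 g5 g6) (sq_nonneg _)
      _ = _ := by ring
  have bd2 : ∑ v, ∑ a, ∑ x, ∑ t, F₂ v a x t ≤
      ∑ t, ∑ x, β * (ρ t x ^ 2 * ((T ^ 8) t x) ^ 2) := by
    have e1 : ∑ v, ∑ a, ∑ x, ∑ t, F₂ v a x t = ∑ t, ∑ x, ∑ a, ∑ v, F₂ v a x t := by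
      calc ∑ v, ∑ a, ∑ x, ∑ t, F₂ v a x t
          = ∑ v, ∑ a, ∑ t, ∑ x, F₂ v a x t :=
            Finset.sum_congr rfl fun v _ => Finset.sum_congr rfl fun a _ => Finset.sum_comm
        _ = ∑ v, ∑ t, ∑ a, ∑ x, F₂ v a x t := Finset.sum_congr rfl fun v _ => Finset.sum_comm
        _ = ∑ t, ∑ v, ∑ a, ∑ x, F₂ v a x t := Finset.sum_comm
        _ = ∑ t, ∑ v, ∑ x, ∑ a, F₂ v a x t :=
            Finset.sum_congr rfl fun t _ => Finset.sum_congr rfl fun v _ => Finset.sum_comm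
        _ = ∑ t, ∑ x, ∑ v, ∑ a, F₂ v a x t := Finset.sum_congr rfl fun t _ => Finset.sum_comm
        _ = ∑ t, ∑ x, ∑ a, ∑ v, F₂ v a x t :=
            Finset.sum_congr rfl fun t _ => Finset.sum_congr rfl fun x _ => Finset.sum_comm
    rw [e1]
    refine Finset.sum_le_sum fun t _ => Finset.sum_le_sum fun x _ => ?_
    have e2 : ∀ a, ∑ v, F₂ v a x t ≤ β * (ρ t x ^ 2 * (T t a * T a x * T t x)) := by
      intro a
      have : ∑ v, F₂ v a x t = (∑ v, M v a * T v t) * (ρ t x ^ 2 * (T t a * T a x * T t x)) := by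
        rw [Finset.sum_mul]
        refine Finset.sum_congr rfl fun v _ => ?_
        simp only [hF₂]
        ring
      rw [this]
      exact mul_le_mul_of_nonneg_right (hM.Mβ a t) (mul_nonneg (sq_nonneg _)
        (mul_nonneg (mul_nonneg (h.T0 _ _) (h.T0 _ _)) (h.T0 _ _)))
    refine (Finset.sum_le_sum fun a _ => e2 a).trans ?_
    have e3 : ∑ a, β * (ρ t x ^ 2 * (T t a * T a x * T t x)) =
        β * (ρ t x ^ 2 * ((T ^ 2) t x * T t x)) := by
      rw [← DE_sq t x, Finset.sum_mul, Finset.mul_sum, Finset.mul_sum]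
    rw [e3]
    have g3 : T t x ≤ (T ^ 8) t x := DE_le_pow h (by norm_num) t x
    have g4 : (T ^ 2) t x ≤ (T ^ 8) t x := (h.pow_le (by norm_num) t x).2.1
    have g6 : 0 ≤ (T ^ 8) t x := (h.pow_le (le_refl 8) t x).1
    refine mul_le_mul_of_nonneg_left ?_ hβ
    refine mul_le_mul_of_nonneg_left ?_ (sq_nonneg _)
    exact (mul_le_mul g4 g3 (h.T0 _ _) g6).trans (le_of_eq (sq _).symm)
  have e1 : ∑ v, ∑ t, (c * B) * (ρ v t ^ 2 * ((T ^ 8) v t) ^ 2) =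
      (c * B) * ∑ v, ∑ t, (ρ v t ^ 2 * ((T ^ 8) v t) ^ 2) := by simp only [Finset.mul_sum]
  have e2 : ∑ v, ∑ t, β * (ρ v t ^ 2 * ((T ^ 8) v t) ^ 2) =
      β * ∑ v, ∑ t, (ρ v t ^ 2 * ((T ^ 8) v t) ^ 2) := by simp only [Finset.mul_sum]
  rw [e1] at bd1
  rw [e2] at bd2
  have c1 := mul_le_mul_of_nonneg_left h.hW (mul_nonneg hc hB0)
  have c2 := mul_le_mul_of_nonneg_left h.hW hβ
  have : (Fintype.card V : ℝ) * (2 * (B * c + β) * W) =
    2 * (c * B * (Fintype.card V * W)) + 2 * (β * (Fintype.card V * W)) := by ring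
  rw [this]
  linarith

end D

end Pool.Agent.helper66.LE
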