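import Pool.Agent.helper20.LE.DR
import Pool.Agent.helper65.LE.W1

set_option autoImplicit false

open Finset Classical

namespace Pool.Agent.helper66.LE

section D

variable {V : Type} [Fintype V] [DecidableEq V] {T Q : Matrix V V ℝ} {ρ : V → V → ℝ} {B δ W : ℝ}

/-- the kernel of `KK` -/
def DW_K (T : Matrix V V ℝ) (v a u t s : V) : ℝ :=
  T v s * T s t * T t a * T a u * T t u + T v t * (T t s * T s a) * T a u * T t u +
        T v t * T t a * (T a s * T s u) * T t u + T v t * T t a * T a u * (T t s * T s u)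

theorem DW_K_nonneg (h : Hyp T Q ρ B δ W) (v a u t s : V) : 0 ≤ DW_K T v a u t s := by
  have := h.T0
  unfold DW_K
  have h1 : 0 ≤ T v s * T s t * T t a * T a u * T t u :=
    mul_nonneg (mul_nonneg (mul_nonneg (mul_nonneg (this _ _) (this _ _)) (this _ _)) (this _ _))
      (this _ _)
  have h2 : 0 ≤ T v t * (T t s * T s a) * T a u * T t u :=
    mul_nonneg (mul_nonneg (mul_nonneg (this _ _) (mul_nonneg (this _ _) (this _ _))) (this _ _))
      (this _ _)
  have h3 : 0 ≤ T v t * T t a * (T a s * T s u) * T t u :=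
    mul_nonneg (mul_nonneg (mul_nonneg (this _ _) (this _ _)) (mul_nonneg (this _ _) (this _ _)))
      (this _ _)
  have h4 : 0 ≤ T v t * T t a * T a u * (T t s * T s u) :=
    mul_nonneg (mul_nonneg (mul_nonneg (this _ _) (this _ _)) (this _ _))
      (mul_nonneg (this _ _) (this _ _))
  linarith

theorem DW_rho (h : Hyp T Q ρ B δ W) (v t u w : V) :
    ρ v w ^ 2 ≤ 3 * ρ v t ^ 2 + 3 * ρ t u ^ 2 + 3 * ρ u w ^ 2 := by
  have h1 := h.ρt v t w
  have h2 := h.ρt t u w
  have h0 := h.ρ0 v w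
  have h3 : ρ v w ≤ ρ v t + ρ t u + ρ u w := by linarith
  have h4 : ρ v w ^ 2 ≤ (ρ v t + ρ t u + ρ u w) ^ 2 := by
    exact pow_le_pow_left₀ h0 h3 2
  nlinarith [sq_nonneg (ρ v t - ρ t u), sq_nonneg (ρ v t - ρ u w), sq_nonneg (ρ t u - ρ u w)]

/-- DW (from DW1, DW2, DR): the weight on one block -/
theorem Hyp.weight_block (h : Hyp T Q ρ B δ W) {M : V → V → ℝ} {c β : ℝ} (hM : LF T M c β)
    (hc : 0 ≤ c) (hβ : 0 ≤ β) (R : V → V → ℝ) (c' : ℝ) (hc' : 0 ≤ c') (hR0 : ∀ w y, 0 ≤ R w y)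
    (hR : ∀ w y, R w y ≤ c' * (T ^ 4) w y) :
    ∑ v, ∑ a, ∑ u, ∑ w, ∑ y, M v a * ρ v w ^ 2 * KK T v a u y * Q u w * R w y ≤
      Fintype.card V * (12 * c' * (δ * B * c * W + β * B * W + δ * B ^ 2 * c)) := by
  have hB0 : 0 ≤ B := zero_le_one.trans h.B1
  set G : V → V → ℝ := fun s u => ∑ w, ∑ y, T s y * Q u w * R w y with hG
  have hKK : ∀ v a u y, KK T v a u y = ∑ t, ∑ s, DW_K T v a u t s * T s y := fun v a u y => rfl
  have hG0 : ∀ s u, 0 ≤ G s u := fun s u => Finset.sum_nonneg fun w _ => Finset.sum_nonneg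
    fun y _ => mul_nonneg (mul_nonneg (h.T0 _ _) (h.Q0 _ _)) (hR0 _ _)
  have hG1 : ∀ s u, G s u ≤ c' * (T ^ 5 * Q) s u := by
    intro s u
    rw [Matrix.mul_apply, Finset.mul_sum]
    refine Finset.sum_le_sum fun w _ => ?_
    have e1 : (T ^ 5) s w = ∑ y, T s y * (T ^ 4) y w := by rw [pow_succ', Matrix.mul_apply]
    rw [e1, Finset.sum_mul, Finset.mul_sum]
    refine Finset.sum_le_sum fun y _ => ?_
    have e2 : (T ^ 4) y w = (T ^ 4) w y := (h.pow_le (le_refl 4) y w).2.2
    rw [e2, h.Qs w u]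
    calc T s y * Q u w * R w y ≤ T s y * Q u w * (c' * (T ^ 4) w y) :=
          mul_le_mul_of_nonneg_left (hR w y) (mul_nonneg (h.T0 _ _) (h.Q0 _ _))
      _ = _ := by ring
  have hG2 : ∀ s u, G s u ≤ c' * δ := fun s u =>
    (hG1 s u).trans (mul_le_mul_of_nonneg_left (h.TQ_le (le_refl 5) s u).2.1 hc')
  have hG3 : ∀ s u, G s u ≤ c' * (T ^ 6) s u := fun s u =>
    (hG1 s u).trans (mul_le_mul_of_nonneg_left (h.TQ_le (le_refl 5) s u).2.2 hc')
  have w1 := h.weight_vt hM hc hβ G c' hc' hG0 hG2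
  have w2 := h.weight_tu hM hc hβ G c' hc' hG0 hG3
  -- the sum over `y, w, t, s`
  have key : ∀ v a u (X : V → ℝ), ∑ w, ∑ y, ∑ t, ∑ s,
      M v a * X t * DW_K T v a u t s * T s y * Q u w * R w y =
      ∑ t, ∑ s, M v a * X t * DW_K T v a u t s * G s u := by
    intro v a u X
    calc ∑ w, ∑ y, ∑ t, ∑ s, M v a * X t * DW_K T v a u t s * T s y * Q u w * R w y
        = ∑ w, ∑ t, ∑ y, ∑ s, M v a * X t * DW_K T v a u t s * T s y * Q u w * R w y :=
          Finset.sum_congr rfl fun w _ => Finset.sum_comm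
      _ = ∑ t, ∑ w, ∑ y, ∑ s, M v a * X t * DW_K T v a u t s * T s y * Q u w * R w y :=
          Finset.sum_comm
      _ = ∑ t, ∑ w, ∑ s, ∑ y, M v a * X t * DW_K T v a u t s * T s y * Q u w * R w y :=
          Finset.sum_congr rfl fun t _ => Finset.sum_congr rfl fun w _ => Finset.sum_comm
      _ = ∑ t, ∑ s, ∑ w, ∑ y, M v a * X t * DW_K T v a u t s * T s y * Q u w * R w y :=
          Finset.sum_congr rfl fun t _ => Finset.sum_comm
      _ = _ := by
          refine Finset.sum_congr rfl fun t _ => Finset.sum_congr rfl fun s _ => ?_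
          simp only [hG, Finset.mul_sum]
          refine Finset.sum_congr rfl fun w _ => Finset.sum_congr rfl fun y _ => ?_
          ring
  have step : ∑ v, ∑ a, ∑ u, ∑ w, ∑ y, M v a * ρ v w ^ 2 * KK T v a u y * Q u w * R w y ≤
      3 * (∑ v, ∑ a, ∑ u, ∑ t, ∑ s, M v a * ρ v t ^ 2 * DW_K T v a u t s * G s u) +
      3 * (∑ v, ∑ a, ∑ u, ∑ t, ∑ s, M v a * ρ t u ^ 2 * DW_K T v a u t s * G s u) +
      3 * (∑ v, ∑ a, M v a * ∑ u, ∑ w, ∑ y, KK T v a u y * Q u w * R w y) := by
    have stepu : ∀ v a u, ∑ w, ∑ y, M v a * ρ v w ^ 2 * KK T v a u y * Q u w * R w y ≤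
        3 * (∑ t, ∑ s, M v a * ρ v t ^ 2 * DW_K T v a u t s * G s u) +
        3 * (∑ t, ∑ s, M v a * ρ t u ^ 2 * DW_K T v a u t s * G s u) +
        3 * (M v a * ∑ w, ∑ y, KK T v a u y * Q u w * R w y) := ?_
    · calc _ ≤ ∑ v, ∑ a, ∑ u, (3 * (∑ t, ∑ s, M v a * ρ v t ^ 2 * DW_K T v a u t s * G s u) +
          3 * (∑ t, ∑ s, M v a * ρ t u ^ 2 * DW_K T v a u t s * G s u) +
          3 * (M v a * ∑ w, ∑ y, KK T v a u y * Q u w * R w y)) :=
            Finset.sum_le_sum fun v _ => Finset.sum_le_sum fun a _ =>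
              Finset.sum_le_sum fun u _ => stepu v a u
        _ = _ := by
            simp only [Finset.sum_add_distrib]
            rw [Finset.mul_sum, Finset.mul_sum, Finset.mul_sum]
            congr 1
            · congr 1
              · refine Finset.sum_congr rfl fun v _ => ?_
                rw [Finset.mul_sum]
                refine Finset.sum_congr rfl fun a _ => ?_
                rw [Finset.mul_sum]
              · refine Finset.sum_congr rfl fun v _ => ?_
                rw [Finset.mul_sum]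
                refine Finset.sum_congr rfl fun a _ => ?_
                rw [Finset.mul_sum]
            · refine Finset.sum_congr rfl fun v _ => ?_
              rw [Finset.mul_sum]
              refine Finset.sum_congr rfl fun a _ => ?_
              rw [Finset.mul_sum, Finset.mul_sum]
    intro v a u
    rw [← key v a u (fun t => ρ v t ^ 2), ← key v a u (fun t => ρ t u ^ 2), Finset.mul_sum,
      Finset.mul_sum, Finset.mul_sum, Finset.mul_sum, ← Finset.sum_add_distrib,
      ← Finset.sum_add_distrib]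
    refine Finset.sum_le_sum fun w _ => ?_
    rw [Finset.mul_sum, Finset.mul_sum, Finset.mul_sum, Finset.mul_sum, ← Finset.sum_add_distrib,
      ← Finset.sum_add_distrib]
    refine Finset.sum_le_sum fun y _ => ?_
    rw [hKK]
    rw [Finset.mul_sum, Finset.mul_sum, Finset.mul_sum, Finset.sum_mul, Finset.sum_mul,
      Finset.sum_mul, Finset.sum_mul, Finset.mul_sum, Finset.mul_sum, ← Finset.sum_add_distrib,
      ← Finset.sum_add_distrib]
    refine Finset.sum_le_sum fun t _ => ?_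
    rw [Finset.mul_sum, Finset.mul_sum, Finset.mul_sum, Finset.sum_mul, Finset.sum_mul,
      Finset.sum_mul, Finset.sum_mul, Finset.mul_sum, Finset.mul_sum, ← Finset.sum_add_distrib,
      ← Finset.sum_add_distrib]
    refine Finset.sum_le_sum fun s _ => ?_
    have n1 := DW_rho h v t u w
    have n0 : 0 ≤ M v a * (DW_K T v a u t s * T s y) * Q u w * R w y :=
      mul_nonneg (mul_nonneg (mul_nonneg (hM.M0 _ _) (mul_nonneg (DW_K_nonneg h _ _ _ _ _)
        (h.T0 _ _))) (h.Q0 _ _)) (hR0 _ _)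
    have n2 : ρ u w ^ 2 * Q u w ≤ Q u w := by
      by_cases hq : Q u w = 0
      · rw [hq]; simp
      · have := h.ρQ u w hq
        have h0 := h.ρ0 u w
        have h1 : ρ u w ^ 2 ≤ 1 := pow_le_one₀ h0 this
        exact mul_le_of_le_one_left (h.Q0 _ _) h1
    have n3 : 0 ≤ M v a * (DW_K T v a u t s * T s y) * R w y :=
      mul_nonneg (mul_nonneg (hM.M0 _ _) (mul_nonneg (DW_K_nonneg h _ _ _ _ _)
        (h.T0 _ _))) (hR0 _ _)
    have n4 := mul_le_mul_of_nonneg_left n2 n3
    have n5 := mul_le_mul_of_nonneg_right n1 n0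
    nlinarith [n4, n5]
  have w3 : ∑ v, ∑ a, M v a * ∑ u, ∑ w, ∑ y, KK T v a u y * Q u w * R w y ≤
      Fintype.card V * (4 * c' * δ * B ^ 2 * c) := by
    have : ∀ v, ∑ a, M v a * ∑ u, ∑ w, ∑ y, KK T v a u y * Q u w * R w y ≤
        4 * c' * δ * B ^ 2 * c := by
      intro v
      calc ∑ a, M v a * ∑ u, ∑ w, ∑ y, KK T v a u y * Q u w * R w y
          ≤ ∑ a, (c * (T ^ 4) v a) * (c' * (4 * B * δ) * (T ^ 4) a v) := by
            refine Finset.sum_le_sum fun a _ => ?_
            have r1 := h.right R c' hR0 hR v a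
            rw [(h.pow_le (le_refl 4) a v).2.2]
            refine mul_le_mul (hM.Mc v a) r1 ?_ (mul_nonneg hc (h.pow_le (le_refl 4) v a).1)
            refine Finset.sum_nonneg fun u _ => Finset.sum_nonneg fun w _ =>
              Finset.sum_nonneg fun y _ => mul_nonneg (mul_nonneg ?_ (h.Q0 _ _)) (hR0 _ _)
            rw [hKK]
            exact Finset.sum_nonneg fun t _ => Finset.sum_nonneg fun s _ =>
              mul_nonneg (DW_K_nonneg h _ _ _ _ _) (h.T0 _ _)
        _ = c * (c' * (4 * B * δ)) * ((T ^ 8) v v) := by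
            have : (T ^ 8) v v = ∑ a, (T ^ 4) v a * (T ^ 4) a v := by
              rw [← Matrix.mul_apply, ← pow_add]
            rw [this, Finset.mul_sum]
            refine Finset.sum_congr rfl fun a _ => ?_
            ring
        _ ≤ c * (c' * (4 * B * δ)) * B :=
            mul_le_mul_of_nonneg_left (h.hB v v) (mul_nonneg hc (mul_nonneg hc'
              (mul_nonneg (mul_nonneg (by norm_num) hB0) h.δ0)))
        _ = _ := by ring
    calc _ ≤ ∑ v : V, 4 * c' * δ * B ^ 2 * c := Finset.sum_le_sum fun v _ => this v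
      _ = _ := by rw [Finset.sum_const, nsmul_eq_mul, Finset.card_univ]
  have e1 : (Fintype.card V : ℝ) * (12 * c' * (δ * B * c * W + β * B * W + δ * B ^ 2 * c)) =
      3 * (Fintype.card V * (4 * c' * δ * B * c * W)) + 3 * (Fintype.card V * (4 * β * c' * B * W)) +
      3 * (Fintype.card V * (4 * c' * δ * B ^ 2 * c)) := by ring
  rw [e1]
  have w1' : ∑ v, ∑ a, ∑ u, ∑ t, ∑ s, M v a * ρ v t ^ 2 * DW_K T v a u t s * G s u ≤
      Fintype.card V * (4 * c' * δ * B * c * W) := w1
  have w2' : ∑ v, ∑ a, ∑ u, ∑ t, ∑ s, M v a * ρ t u ^ 2 * DW_K T v a u t s * G s u ≤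
      Fintype.card V * (4 * β * c' * B * W) := w2
  linarith

end D

end Pool.Agent.helper66.LE
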