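import Pool.Agent.helper20.LE.DS
import Pool.Agent.helper20.LE.DL
import Pool.Agent.helper2.LE.DE
import Pool.Agent.helper2.LE.DW

set_option autoImplicit false

open Finset Classical

namespace Pool.Agent.helper66.LE

section D

variable {V : Type} [Fintype V] [DecidableEq V] {T Q : Matrix V V ℝ} {ρ : V → V → ℝ} {B δ W : ℝ}

theorem DA_EE_nonneg (h : Hyp T Q ρ B δ W) (v a x : V) : 0 ≤ EE T v a x :=
  Finset.sum_nonneg fun t _ =>
    mul_nonneg (mul_nonneg (mul_nonneg (h.T0 _ _) (h.T0 _ _)) (h.T0 _ _)) (h.T0 _ _)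

theorem DA_KK_nonneg (h : Hyp T Q ρ B δ W) (v a u y : V) : 0 ≤ KK T v a u y := by
  have := h.T0
  refine Finset.sum_nonneg fun t _ => Finset.sum_nonneg fun s _ => ?_
  have h1 : 0 ≤ T v s * T s t * T t a * T a u * T t u :=
    mul_nonneg (mul_nonneg (mul_nonneg (mul_nonneg (this _ _) (this _ _)) (this _ _)) (this _ _))
      (this _ _)
  have h2 : 0 ≤ T v t * (T t s * T s a) * T a u * T t u :=
    mul_nonneg (mul_nonneg (mul_nonneg (this _ _) (mul_nonneg (this _ _) (this _ _))) (this _ _))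
      (this _ _)
  have h3 : 0 ≤ T v t * T t a * (T a s * T s u) * T t u :=
    mul_nonneg (mul_nonneg (mul_nonneg (this _ _) (this _ _)) (mul_nonneg (this _ _) (this _ _)))
      (this _ _)
  have h4 : 0 ≤ T v t * T t a * T a u * (T t s * T s u) :=
    mul_nonneg (mul_nonneg (mul_nonneg (this _ _) (this _ _)) (this _ _))
      (mul_nonneg (this _ _) (this _ _))
  exact mul_nonneg (by linarith) (this _ _)

theorem DA_Dg_nonneg (h : Hyp T Q ρ B δ W) (n : ℕ) (v a x : V) : 0 ≤ Dg T Q n v a x := by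
  induction n generalizing v a x with
  | zero => exact DA_EE_nonneg h v a x
  | succ n ih =>
    exact Finset.sum_nonneg fun u _ => Finset.sum_nonneg fun w _ => Finset.sum_nonneg fun y _ =>
      mul_nonneg (mul_nonneg (DA_KK_nonneg h _ _ _ _) (h.Q0 _ _)) (ih _ _ _)

theorem DA_sq_rho (h : Hyp T Q ρ B δ W) (x y z : V) :
    ρ x z ^ 2 ≤ 2 * ρ x y ^ 2 + 2 * ρ y z ^ 2 := by
  have h1 := h.ρt x y z
  have h2 := h.ρ0 x z
  nlinarith [sq_nonneg (ρ x y - ρ y z), h.ρ0 x y, h.ρ0 y z]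

/-- the coefficients of the recursion (`κ = 4 B δ`) -/
noncomputable def DA_a (B κ W : ℝ) : ℕ → ℝ
  | 0 => 2 * B * W
  | n + 1 => 6 * B * (W + B) * κ ^ (n + 1)

noncomputable def DA_b (B κ W : ℝ) : ℕ → ℝ
  | 0 => 2 * W
  | n + 1 => 24 * B ^ 2 * κ ^ n * W + 8 * B * DA_a B κ W n + 2 * κ * DA_b B κ W n

theorem DA_a_nonneg {B κ W : ℝ} (hB : 0 ≤ B) (hκ : 0 ≤ κ) (hW : 0 ≤ W) (n : ℕ) :
    0 ≤ DA_a B κ W n := by
  cases n with
  | zero => unfold DA_a; positivity
  | succ n => unfold DA_a; positivity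

theorem DA_b_nonneg {B κ W : ℝ} (hB : 0 ≤ B) (hκ : 0 ≤ κ) (hW : 0 ≤ W) (n : ℕ) :
    0 ≤ DA_b B κ W n := by
  induction n with
  | zero => unfold DA_b; positivity
  | succ n ih =>
    have := DA_a_nonneg hB hκ hW n
    unfold DA_b
    positivity

/-- the main estimate -/
theorem DA_main (h : Hyp T Q ρ B δ W) (n : ℕ) : ∀ {M : V → V → ℝ} {c β : ℝ} (_ : LF T M c β)
    (_ : 0 ≤ c) (_ : 0 ≤ β), ∑ v, ∑ a, ∑ x, M v a * ρ v x ^ 2 * Dg T Q n v a x ≤
      Fintype.card V * (DA_a B (4 * B * δ) W n * c + DA_b B (4 * B * δ) W n * β) := by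
  have hB0 : 0 ≤ B := zero_le_one.trans h.B1
  have hκ0 : 0 ≤ 4 * B * δ := mul_nonneg (mul_nonneg (by norm_num) hB0) h.δ0
  induction n with
  | zero =>
    intro M c β hM hc hβ
    have := h.weight_last hM hc hβ
    unfold DA_a DA_b
    calc _ ≤ _ := this
      _ = _ := by ring
  | succ n ih =>
    intro M c β hM hc hβ
    set κ := 4 * B * δ with hκ
    have hM' := h.left hM hβ
    set M' : V → V → ℝ := fun w y => ∑ v, ∑ a, ∑ u, M v a * KK T v a u y * Q u w with hM'def
    have i1 := ih hM' (mul_nonneg (mul_nonneg (by norm_num) hB0) hβ) (mul_nonneg hκ0 hβ)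
    set R : V → V → ℝ := fun w y => ∑ x, Dg T Q n w y x with hR
    have i2 := h.weight_block hM hc hβ R (B * κ ^ n) (mul_nonneg hB0 (pow_nonneg hκ0 n))
      (fun w y => Finset.sum_nonneg fun x _ => DA_Dg_nonneg h n w y x) (fun w y => h.sum_Dg n w y)
    -- splitting
    have step : ∑ v, ∑ a, ∑ x, M v a * ρ v x ^ 2 * Dg T Q (n + 1) v a x ≤
        2 * (∑ v, ∑ a, ∑ u, ∑ w, ∑ y, M v a * ρ v w ^ 2 * KK T v a u y * Q u w * R w y) +
        2 * (∑ w, ∑ y, ∑ x, M' w y * ρ w x ^ 2 * Dg T Q n w y x) := by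
      have e1 : ∑ w, ∑ y, ∑ x, M' w y * ρ w x ^ 2 * Dg T Q n w y x =
          ∑ v, ∑ a, ∑ u, ∑ w, ∑ y, ∑ x,
            M v a * KK T v a u y * Q u w * (ρ w x ^ 2 * Dg T Q n w y x) := by
        calc ∑ w, ∑ y, ∑ x, M' w y * ρ w x ^ 2 * Dg T Q n w y x
            = ∑ w, ∑ y, ∑ v, ∑ a, ∑ u, M v a * KK T v a u y * Q u w *
                ∑ x, ρ w x ^ 2 * Dg T Q n w y x := by
              refine Finset.sum_congr rfl fun w _ => Finset.sum_congr rfl fun y _ => ?_
              have : ∑ x, M' w y * ρ w x ^ 2 * Dg T Q n w y x =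
                  M' w y * ∑ x, ρ w x ^ 2 * Dg T Q n w y x := by
                rw [Finset.mul_sum]
                exact Finset.sum_congr rfl fun x _ => mul_assoc _ _ _
              rw [this, hM'def]
              simp only [Finset.sum_mul]
          _ = ∑ w, ∑ v, ∑ y, ∑ a, ∑ u, M v a * KK T v a u y * Q u w *
                ∑ x, ρ w x ^ 2 * Dg T Q n w y x := Finset.sum_congr rfl fun w _ => Finset.sum_comm
          _ = ∑ v, ∑ w, ∑ y, ∑ a, ∑ u, M v a * KK T v a u y * Q u w *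
                ∑ x, ρ w x ^ 2 * Dg T Q n w y x := Finset.sum_comm
          _ = ∑ v, ∑ w, ∑ a, ∑ y, ∑ u, M v a * KK T v a u y * Q u w *
                ∑ x, ρ w x ^ 2 * Dg T Q n w y x := Finset.sum_congr rfl fun v _ =>
                  Finset.sum_congr rfl fun w _ => Finset.sum_comm
          _ = ∑ v, ∑ a, ∑ w, ∑ y, ∑ u, M v a * KK T v a u y * Q u w *
                ∑ x, ρ w x ^ 2 * Dg T Q n w y x := Finset.sum_congr rfl fun v _ =>
                  Finset.sum_comm
          _ = ∑ v, ∑ a, ∑ w, ∑ u, ∑ y, M v a * KK T v a u y * Q u w *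
                ∑ x, ρ w x ^ 2 * Dg T Q n w y x := Finset.sum_congr rfl fun v _ =>
                  Finset.sum_congr rfl fun a _ => Finset.sum_congr rfl fun w _ => Finset.sum_comm
          _ = ∑ v, ∑ a, ∑ u, ∑ w, ∑ y, M v a * KK T v a u y * Q u w *
                ∑ x, ρ w x ^ 2 * Dg T Q n w y x := Finset.sum_congr rfl fun v _ =>
                  Finset.sum_congr rfl fun a _ => Finset.sum_comm
          _ = _ := by simp only [Finset.mul_sum]
      rw [e1]
      have stepa : ∀ v a, ∑ x, M v a * ρ v x ^ 2 * Dg T Q (n + 1) v a x ≤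
          2 * (∑ u, ∑ w, ∑ y, M v a * ρ v w ^ 2 * KK T v a u y * Q u w * R w y) +
          2 * (∑ u, ∑ w, ∑ y, ∑ x,
            M v a * KK T v a u y * Q u w * (ρ w x ^ 2 * Dg T Q n w y x)) := by
        intro v a
        have e2 : ∑ x, M v a * ρ v x ^ 2 * Dg T Q (n + 1) v a x =
            ∑ u, ∑ w, ∑ y, ∑ x, M v a * KK T v a u y * Q u w * (ρ v x ^ 2 * Dg T Q n w y x) := by
          calc ∑ x, M v a * ρ v x ^ 2 * Dg T Q (n + 1) v a x
              = ∑ x, ∑ u, ∑ w, ∑ y,
                  M v a * KK T v a u y * Q u w * (ρ v x ^ 2 * Dg T Q n w y x) := by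
                refine Finset.sum_congr rfl fun x _ => ?_
                have : Dg T Q (n + 1) v a x =
                  ∑ u, ∑ w, ∑ y, KK T v a u y * Q u w * Dg T Q n w y x := rfl
                rw [this]
                simp only [Finset.mul_sum]
                refine Finset.sum_congr rfl fun u _ => Finset.sum_congr rfl fun w _ =>
                  Finset.sum_congr rfl fun y _ => ?_
                ring
            _ = ∑ u, ∑ x, ∑ w, ∑ y,
                  M v a * KK T v a u y * Q u w * (ρ v x ^ 2 * Dg T Q n w y x) := Finset.sum_comm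
            _ = ∑ u, ∑ w, ∑ x, ∑ y,
                  M v a * KK T v a u y * Q u w * (ρ v x ^ 2 * Dg T Q n w y x) :=
                Finset.sum_congr rfl fun u _ => Finset.sum_comm
            _ = _ := Finset.sum_congr rfl fun u _ => Finset.sum_congr rfl fun w _ =>
                Finset.sum_comm
        rw [e2, Finset.mul_sum, Finset.mul_sum, ← Finset.sum_add_distrib]
        refine Finset.sum_le_sum fun u _ => ?_
        rw [Finset.mul_sum, Finset.mul_sum, ← Finset.sum_add_distrib]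
        refine Finset.sum_le_sum fun w _ => ?_
        rw [Finset.mul_sum, Finset.mul_sum, ← Finset.sum_add_distrib]
        refine Finset.sum_le_sum fun y _ => ?_
        rw [hR]
        simp only
        rw [Finset.mul_sum, Finset.mul_sum, Finset.mul_sum, ← Finset.sum_add_distrib]
        refine Finset.sum_le_sum fun x _ => ?_
        have n0 : 0 ≤ M v a * KK T v a u y * Q u w * Dg T Q n w y x :=
          mul_nonneg (mul_nonneg (mul_nonneg (hM.M0 _ _) (DA_KK_nonneg h _ _ _ _)) (h.Q0 _ _))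
            (DA_Dg_nonneg h _ _ _ _)
        have n1 := DA_sq_rho h v w x
        have n2 := mul_le_mul_of_nonneg_right n1 n0
        nlinarith [n2]
      calc _ ≤ ∑ v, ∑ a, (2 * (∑ u, ∑ w, ∑ y,
              M v a * ρ v w ^ 2 * KK T v a u y * Q u w * R w y) +
            2 * (∑ u, ∑ w, ∑ y, ∑ x,
              M v a * KK T v a u y * Q u w * (ρ w x ^ 2 * Dg T Q n w y x))) :=
            Finset.sum_le_sum fun v _ => Finset.sum_le_sum fun a _ => stepa v a
        _ = _ := by
            simp only [Finset.sum_add_distrib]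
            rw [Finset.mul_sum, Finset.mul_sum]
            congr 1
            · refine Finset.sum_congr rfl fun v _ => ?_
              rw [Finset.mul_sum]
            · refine Finset.sum_congr rfl fun v _ => ?_
              rw [Finset.mul_sum]
    refine step.trans ?_
    have e3 : DA_a B κ W (n + 1) = 6 * B * (W + B) * κ ^ (n + 1) := rfl
    have e4 : DA_b B κ W (n + 1) = 24 * B ^ 2 * κ ^ n * W + 8 * B * DA_a B κ W n +
      2 * κ * DA_b B κ W n := rfl
    rw [e3, e4]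
    have e5 : (Fintype.card V : ℝ) * (6 * B * (W + B) * κ ^ (n + 1) * c +
        (24 * B ^ 2 * κ ^ n * W + 8 * B * DA_a B κ W n + 2 * κ * DA_b B κ W n) * β) =
        2 * (Fintype.card V * (12 * (B * κ ^ n) * (δ * B * c * W + β * B * W + δ * B ^ 2 * c))) +
        2 * (Fintype.card V * (DA_a B κ W n * (4 * B * β) + DA_b B κ W n * (κ * β))) := by
      have : κ ^ (n + 1) = κ ^ n * (4 * B * δ) := by rw [pow_succ]
      rw [this]
      ring
    rw [e5]
    linarith

theorem DA_num {B κ W : ℝ} (hB : 1 ≤ B) (hκ0 : 0 ≤ κ) (hκ : κ ≤ 1 / 8) (hW0 : 0 ≤ W)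
    (hW : W ≤ 1) (n : ℕ) :
    DA_a B κ W n + DA_b B κ W n ≤ 1000 * B ^ 3 * (W + κ) * (1 / 2) ^ n := by
  have hB0 : 0 ≤ B := zero_le_one.trans hB
  set X := B ^ 3 * (W + κ) with hX
  have hB2 : B ≤ B ^ 3 := by nlinarith [sq_nonneg (B - 1), sq_nonneg B]
  have hB3 : B ^ 2 ≤ B ^ 3 := by nlinarith [sq_nonneg B]
  have hB4 : 1 ≤ B ^ 3 := by nlinarith
  have hB5 : (1 : ℝ) ≤ B ^ 2 := by nlinarith
  have hX0 : 0 ≤ X := by positivity
  have hWX : B ^ 3 * W ≤ X := by rw [hX]; nlinarith [pow_nonneg hB0 3]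
  have hκX : B ^ 3 * κ ≤ X := by rw [hX]; nlinarith [pow_nonneg hB0 3]
  -- powers
  have pk : ∀ m : ℕ, κ ^ (m + 1) ≤ κ * (1 / 8) ^ m := by
    intro m
    rw [pow_succ, mul_comm]
    exact mul_le_mul_of_nonneg_left (pow_le_pow_left₀ hκ0 hκ m) hκ0
  have p8 : ∀ m : ℕ, ((1 : ℝ) / 8) ^ m ≤ (1 / 2) ^ m := fun m =>
    pow_le_pow_left₀ (by norm_num) (by norm_num) m
  have ha : ∀ m : ℕ, DA_a B κ W m ≤ 24 * X * (1 / 2) ^ m := by
    intro m
    cases m with
    | zero =>
      unfold DA_a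
      have : B * W ≤ B ^ 3 * W := mul_le_mul_of_nonneg_right hB2 hW0
      simp only [pow_zero, mul_one]
      linarith
    | succ m =>
      unfold DA_a
      have h1 : B * (W + B) ≤ 2 * B ^ 2 := by nlinarith
      have h2 : 6 * B * (W + B) * κ ^ (m + 1) ≤ 12 * B ^ 3 * (κ * (1 / 8) ^ m) := by
        have : 6 * B * (W + B) ≤ 12 * B ^ 3 := by nlinarith
        exact mul_le_mul this (pk m) (pow_nonneg hκ0 _) (by positivity)
      have h3 : 12 * B ^ 3 * (κ * (1 / 8) ^ m) ≤ 12 * X * (1 / 2) ^ m := by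
        have : 12 * B ^ 3 * (κ * (1 / 8) ^ m) = 12 * (B ^ 3 * κ) * (1 / 8) ^ m := by ring
        rw [this]
        exact mul_le_mul (mul_le_mul_of_nonneg_left hκX (by norm_num)) (p8 m) (by positivity)
          (by positivity)
      have h4 : 24 * X * (1 / 2) ^ (m + 1) = 12 * X * (1 / 2) ^ m := by rw [pow_succ]; ring
      rw [h4]
      exact h2.trans h3
  have hb0 : DA_b B κ W 0 = 2 * W := rfl
  have hbs : ∀ m, DA_b B κ W (m + 1) = 24 * B ^ 2 * κ ^ m * W + 8 * B * DA_a B κ W m +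
      2 * κ * DA_b B κ W m := fun m => rfl
  have ha0 : DA_a B κ W 0 = 2 * B * W := rfl
  have has : ∀ m, DA_a B κ W (m + 1) = 6 * B * (W + B) * κ ^ (m + 1) := fun m => rfl
  have hW3 : W ≤ B ^ 3 * W := le_mul_of_one_le_left hW0 hB4
  have hW2 : B ^ 2 * W ≤ B ^ 3 * W := mul_le_mul_of_nonneg_right hB3 hW0
  have hW2' : W ≤ B ^ 2 * W := le_mul_of_one_le_left hW0 hB5
  have hb1 : DA_b B κ W 1 ≤ 41 * (B ^ 2 * W) := by
    have := hbs 0
    rw [hb0, ha0] at this
    simp only [zero_add, pow_zero, mul_one] at this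
    rw [this]
    have : κ * W ≤ 1 / 8 * (B ^ 2 * W) := mul_le_mul hκ hW2' hW0 (by norm_num)
    nlinarith
  have hb1' : 0 ≤ DA_b B κ W 1 := DA_b_nonneg hB0 hκ0 hW0 1
  have hb2 : DA_b B κ W 2 ≤ 202 * (B ^ 3 * κ) := by
    have h1 := hbs 1
    have h2 := has 0
    simp only [zero_add, pow_one, Nat.reduceAdd] at h1 h2
    rw [h1, h2]
    have c1 : 24 * B ^ 2 * κ * W ≤ 24 * (B ^ 3 * κ) := by
      have : B ^ 2 * W ≤ B ^ 3 := by nlinarith [pow_nonneg hB0 2]
      nlinarith
    have c2 : 8 * B * (6 * B * (W + B) * κ) ≤ 96 * (B ^ 3 * κ) := by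
      have h1 : B * (B * (W + B)) ≤ 2 * B ^ 3 := by
        have : B * (W + B) ≤ 2 * B ^ 2 := by nlinarith
        nlinarith
      nlinarith
    have c3 : 2 * κ * DA_b B κ W 1 ≤ 82 * (B ^ 3 * κ) := by
      have : DA_b B κ W 1 ≤ 41 * B ^ 3 := by
        have : B ^ 2 * W ≤ B ^ 3 := by nlinarith [pow_nonneg hB0 2]
        linarith
      nlinarith
    linarith
  have hb : ∀ m : ℕ, DA_b B κ W (m + 2) ≤ 808 * X * (1 / 2) ^ (m + 2) := by
    intro m
    induction m with
    | zero =>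
      refine hb2.trans ?_
      norm_num
      linarith
    | succ m ih =>
      rw [hbs (m + 2)]
      have k1 : κ ^ (m + 2) ≤ κ * (1 / 8) ^ (m + 1) := pk (m + 1)
      have k2 : 24 * B ^ 2 * κ ^ (m + 2) * W ≤ 24 * X * (1 / 8) ^ (m + 1) := by
        have : 24 * B ^ 2 * κ ^ (m + 2) * W ≤ 24 * B ^ 3 * (κ * (1 / 8) ^ (m + 1)) := by
          have g1 : B ^ 2 * W ≤ B ^ 3 := by nlinarith [pow_nonneg hB0 2]
          calc 24 * B ^ 2 * κ ^ (m + 2) * W = 24 * (B ^ 2 * W) * κ ^ (m + 2) := by ring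
            _ ≤ 24 * B ^ 3 * (κ * (1 / 8) ^ (m + 1)) :=
              mul_le_mul (by linarith) k1 (pow_nonneg hκ0 _) (by positivity)
        refine this.trans ?_
        calc 24 * B ^ 3 * (κ * (1 / 8) ^ (m + 1)) = 24 * (B ^ 3 * κ) * (1 / 8) ^ (m + 1) := by ring
          _ ≤ _ := mul_le_mul_of_nonneg_right (by linarith) (by positivity)
      have k3 : 8 * B * DA_a B κ W (m + 2) ≤ 96 * X * (1 / 8) ^ (m + 1) := by
        rw [has (m + 1)]
        have g1 : B * (B * (W + B)) ≤ 2 * B ^ 3 := by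
          have : B * (W + B) ≤ 2 * B ^ 2 := by nlinarith
          nlinarith
        calc 8 * B * (6 * B * (W + B) * κ ^ (m + 1 + 1))
            = 48 * (B * (B * (W + B))) * κ ^ (m + 2) := by ring
          _ ≤ 96 * B ^ 3 * (κ * (1 / 8) ^ (m + 1)) :=
              mul_le_mul (by linarith) k1 (pow_nonneg hκ0 _) (by positivity)
          _ = 96 * (B ^ 3 * κ) * (1 / 8) ^ (m + 1) := by ring
          _ ≤ _ := mul_le_mul_of_nonneg_right (by linarith) (by positivity)
      have k4 : 2 * κ * DA_b B κ W (m + 2) ≤ 1 / 4 * (808 * X * (1 / 2) ^ (m + 2)) :=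
        mul_le_mul (by linarith) ih (DA_b_nonneg hB0 hκ0 hW0 _) (by norm_num)
      have k5 : ((1 : ℝ) / 8) ^ (m + 1) ≤ 1 / 4 * (1 / 2) ^ (m + 1) := by
        have : ((1 : ℝ) / 8) ^ (m + 1) = (1 / 4) ^ (m + 1) * (1 / 2) ^ (m + 1) := by
          rw [← mul_pow]; norm_num
        rw [this]
        refine mul_le_mul_of_nonneg_right ?_ (by positivity)
        calc ((1 : ℝ) / 4) ^ (m + 1) ≤ (1 / 4) ^ 1 :=
              pow_le_pow_of_le_one (by norm_num) (by norm_num) (by omega)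
          _ = 1 / 4 := pow_one _
      have k6 : 120 * X * ((1 : ℝ) / 8) ^ (m + 1) ≤ 120 * X * (1 / 4 * (1 / 2) ^ (m + 1)) :=
        mul_le_mul_of_nonneg_left k5 (by positivity)
      have k7 : ((1 : ℝ) / 2) ^ (m + 2) = 1 / 2 * (1 / 2) ^ (m + 1) := by rw [pow_succ]; ring
      have k8 : ((1 : ℝ) / 2) ^ (m + 1 + 2) = 1 / 4 * (1 / 2) ^ (m + 1) := by
        rw [pow_succ, pow_succ]; ring
      rw [k7] at k4
      rw [k8]
      have k9 : 0 ≤ X * (1 / 2) ^ (m + 1) := by positivity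
      nlinarith
  have hA := ha n
  rcases n with _ | _ | n
  · rw [hb0, ha0]
    simp only [pow_zero, mul_one]
    have : B * W ≤ B ^ 3 * W := mul_le_mul_of_nonneg_right hB2 hW0
    have e : 1000 * B ^ 3 * (W + κ) = 1000 * X := by rw [hX]; ring
    rw [e]
    linarith
  · have e : 1000 * B ^ 3 * (W + κ) * (1 / 2) ^ (0 + 1) = 500 * X := by rw [hX]; ring
    rw [e]
    simp only [zero_add, pow_one] at hA ⊢
    linarith
  · have e : 1000 * B ^ 3 * (W + κ) * (1 / 2) ^ (n + 1 + 1) = 1000 * (X * (1 / 2) ^ (n + 2)) := by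
      rw [hX]; ring
    rw [e]
    have hb' := hb n
    have : 0 ≤ X * (1 / 2) ^ (n + 2) := by positivity
    have hA' : DA_a B κ W (n + 1 + 1) ≤ 24 * (X * (1 / 2) ^ (n + 2)) := by
      refine hA.trans (le_of_eq ?_)
      ring
    have hb'' : DA_b B κ W (n + 1 + 1) ≤ 808 * (X * (1 / 2) ^ (n + 2)) := by
      refine hb'.trans (le_of_eq ?_)
      ring
    linarith

/-- DA (from DS, DL, DW, DE) -/
theorem Hyp.weight_Dg (h : Hyp T Q ρ B δ W) (hκ : 4 * B * δ ≤ 1 / 8) (hW : W ≤ 1) (n : ℕ) :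
    ∑ v, ∑ x, ρ v x ^ 2 * Dg T Q n v v x ≤
      Fintype.card V * (1000 * B ^ 3 * (W + 4 * B * δ) * (1 / 2) ^ n) := by
  have hB0 : 0 ≤ B := zero_le_one.trans h.B1
  have hκ0 : 0 ≤ 4 * B * δ := mul_nonneg (mul_nonneg (by norm_num) hB0) h.δ0
  have hM : LF T (fun v a => if v = a then 1 else 0) 1 1 := by
    refine ⟨fun v a => ?_, fun a x => ?_, fun v a => ?_⟩
    · split_ifs <;> norm_num
    · simp only [ite_mul, one_mul, zero_mul]
      rw [Finset.sum_ite_eq' Finset.univ a]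
      simp only [Finset.mem_univ, if_true]
      exact h.Tle _ _
    · by_cases hva : v = a
      · subst hva
        have := (h.pow_le (Nat.zero_le 4) v v).2.1
        simp only [pow_zero, Matrix.one_apply_eq] at this
        simp only [if_true, one_mul]
        exact this
      · simp only [hva, if_false, one_mul]
        exact (h.pow_le (le_refl 4) v a).1
  have key := DA_main h n hM zero_le_one zero_le_one
  have e : ∑ v, ∑ a, ∑ x, (if v = a then (1 : ℝ) else 0) * ρ v x ^ 2 * Dg T Q n v a x =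
      ∑ v, ∑ x, ρ v x ^ 2 * Dg T Q n v v x := by
    refine Finset.sum_congr rfl fun v _ => ?_
    rw [Finset.sum_eq_single v]
    · simp
    · intro a _ ha
      refine Finset.sum_eq_zero fun x _ => ?_
      rw [if_neg (Ne.symm ha)]
      simp
    · intro hv
      exact absurd (Finset.mem_univ v) hv
  rw [e] at key
  refine key.trans ?_
  rw [mul_one, mul_one]
  exact mul_le_mul_of_nonneg_left (DA_num h.B1 hκ0 hκ h.W0 hW n) (Nat.cast_nonneg _)

end D

end Pool.Agent.helper66.LE
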