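import Pool.Agent.helper83.LE.SpecB

/-!
# Row `le:DIS` (MP_baa4d7): alternating sums of small Fourier coefficients which are integers
-/

set_option autoImplicit false

namespace Pool.Agent.LE

open Pool.Agent.helper58.DC Pool.Agent.DI Pool.Agent.GR Pool.Agent.OB Pool.Agent.DR Pool.Agent.FI Pool.Agent.FI3 Pool.Agent.FI4 Pool.Agent.FI4C

/-- an integer of absolute value less than `1` -/
theorem DIS_int {m : ℤ} (h : ‖(m : ℂ)‖ < 1) : m = 0 := by
  rw [Complex.norm_intCast] at h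
  have h1 : |m| < 1 := by exact_mod_cast h
  exact Int.abs_lt_one_iff.1 h1

/-- (1) of the proof -/
theorem DIS_small (hAVE : AVE_stmt) {A : Type} [CommGroup A] [Fintype A] [DecidableEq A] {N n : ℕ}
    {P : Fin N → Finset A} {h : A → ℂ} (hn : 1 ≤ n) (hP : ∀ i, 16 ^ N * n < (P i).card)
    (hsum : ∑ x, ‖h x‖ ^ 2 ≤ n)
    (hint : ∀ w : Fin N → A, (∀ i, w i ∈ P i) → ∀ l, ∃ m : ℤ,
      ∑ S : Finset (Fin N), (-1 : ℂ) ^ S.card * h (l * ∏ i ∈ S, w i) = m)
    (hlt : ∀ x, ‖h x‖ < 1 / 2) (l : A) : ‖h l‖ < (1 / 2 : ℝ) ^ N := by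
  rcases Nat.eq_zero_or_pos N with h0 | h0
  · subst h0
    rw [pow_zero]
    exact (hlt l).trans (by norm_num)
  have hn' : (1 : ℝ) ≤ n := by exact_mod_cast hn
  have hWne : (Fintype.piFinset P).Nonempty := by
    have h1 : 0 < (Fintype.piFinset P).card := by
      rw [Fintype.card_piFinset]
      exact Finset.prod_pos fun i _ => lt_of_le_of_lt (Nat.zero_le _) (hP i)
    exact Finset.card_pos.1 h1
  have hWc : (0 : ℝ) < (Fintype.piFinset P).card := by exact_mod_cast hWne.card_pos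
  -- the sums over `w`
  have hS : ∀ S : Finset (Fin N), S.Nonempty →
      ∑ w ∈ Fintype.piFinset P, ‖h (l * ∏ i ∈ S, w i)‖ ≤ (Fintype.piFinset P).card * (1 / 4 : ℝ) ^ N := by
    intro S hS
    have h1 := hAVE A N P ((16 : ℝ) ^ N * n) (fun x => ‖h x‖ ^ 2) l S (fun x => by positivity)
      (by positivity) (fun i => by exact_mod_cast (hP i).le) hS
    have h2 : ((Fintype.piFinset P).card : ℝ) / ((16 : ℝ) ^ N * n) * ∑ x, ‖h x‖ ^ 2 ≤
        (Fintype.piFinset P).card * (1 / 16 : ℝ) ^ N := by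
      calc ((Fintype.piFinset P).card : ℝ) / ((16 : ℝ) ^ N * n) * ∑ x, ‖h x‖ ^ 2
          ≤ ((Fintype.piFinset P).card : ℝ) / ((16 : ℝ) ^ N * n) * n :=
            mul_le_mul_of_nonneg_left hsum (by positivity)
        _ = (Fintype.piFinset P).card * (1 / 16 : ℝ) ^ N := by
            rw [one_div, inv_pow]
            have : (n : ℝ) ≠ 0 := by linarith
            field_simp
    have h3 : (∑ w ∈ Fintype.piFinset P, ‖h (l * ∏ i ∈ S, w i)‖) ^ 2 ≤
        ((Fintype.piFinset P).card : ℝ) * ∑ w ∈ Fintype.piFinset P, ‖h (l * ∏ i ∈ S, w i)‖ ^ 2 :=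
      sq_sum_le_card_mul_sum_sq
    have h4 : (∑ w ∈ Fintype.piFinset P, ‖h (l * ∏ i ∈ S, w i)‖) ^ 2 ≤
        ((Fintype.piFinset P).card * (1 / 4 : ℝ) ^ N) ^ 2 := by
      refine h3.trans ?_
      calc ((Fintype.piFinset P).card : ℝ) * ∑ w ∈ Fintype.piFinset P, ‖h (l * ∏ i ∈ S, w i)‖ ^ 2
          ≤ (Fintype.piFinset P).card * ((Fintype.piFinset P).card * (1 / 16 : ℝ) ^ N) :=
            mul_le_mul_of_nonneg_left (h1.trans h2) hWc.le
        _ = ((Fintype.piFinset P).card * (1 / 4 : ℝ) ^ N) ^ 2 := by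
            rw [mul_pow, ← pow_mul, mul_comm N 2, pow_mul]
            norm_num
            ring
    exact (pow_le_pow_iff_left₀ (Finset.sum_nonneg fun _ _ => norm_nonneg _) (by positivity)
      two_ne_zero).1 h4
  -- a good choice of `w`
  have hT : ∑ w ∈ Fintype.piFinset P, ∑ S ∈ (Finset.univ : Finset (Finset (Fin N))).erase ∅,
      ‖h (l * ∏ i ∈ S, w i)‖ < ∑ _w ∈ Fintype.piFinset P, (1 / 2 : ℝ) ^ N := by
    rw [Finset.sum_comm]
    have hc : (((Finset.univ : Finset (Finset (Fin N))).erase ∅).card : ℝ) < 2 ^ N := by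
      have h1 : ((Finset.univ : Finset (Finset (Fin N))).erase ∅).card <
          (Finset.univ : Finset (Finset (Fin N))).card :=
        Finset.card_erase_lt_of_mem (Finset.mem_univ _)
      rw [Finset.card_univ, Fintype.card_finset, Fintype.card_fin] at h1
      exact_mod_cast h1
    calc ∑ S ∈ (Finset.univ : Finset (Finset (Fin N))).erase ∅,
          ∑ w ∈ Fintype.piFinset P, ‖h (l * ∏ i ∈ S, w i)‖
        ≤ ∑ _S ∈ (Finset.univ : Finset (Finset (Fin N))).erase ∅,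
            ((Fintype.piFinset P).card * (1 / 4 : ℝ) ^ N) :=
          Finset.sum_le_sum fun S h1 => hS S (Finset.nonempty_iff_ne_empty.2 (Finset.ne_of_mem_erase h1))
      _ = (((Finset.univ : Finset (Finset (Fin N))).erase ∅).card : ℝ) *
            ((Fintype.piFinset P).card * (1 / 4 : ℝ) ^ N) := by
          rw [Finset.sum_const, nsmul_eq_mul]
      _ < 2 ^ N * ((Fintype.piFinset P).card * (1 / 4 : ℝ) ^ N) :=
          mul_lt_mul_of_pos_right hc (by positivity)
      _ = (Fintype.piFinset P).card * ((2 : ℝ) ^ N * (1 / 4 : ℝ) ^ N) := by ring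
      _ = ∑ _w ∈ Fintype.piFinset P, (1 / 2 : ℝ) ^ N := by
          rw [Finset.sum_const, nsmul_eq_mul, ← mul_pow]
          norm_num
  obtain ⟨w, hwW, hw⟩ := Finset.exists_lt_of_sum_lt hT
  obtain ⟨m, hm⟩ := hint w (fun i => Fintype.mem_piFinset.1 hwW i) l
  rw [← Finset.add_sum_erase Finset.univ _ (Finset.mem_univ ∅)] at hm
  simp only [Finset.card_empty, pow_zero, Finset.prod_empty, mul_one, one_mul] at hm
  have hE : ‖∑ S ∈ (Finset.univ : Finset (Finset (Fin N))).erase ∅,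
      (-1 : ℂ) ^ S.card * h (l * ∏ i ∈ S, w i)‖ < (1 / 2 : ℝ) ^ N := by
    refine lt_of_le_of_lt (norm_sum_le_of_le _ fun S _ => ?_) hw
    rw [norm_mul, norm_pow, norm_neg, norm_one, one_pow, one_mul]
  have hhalf : (1 / 2 : ℝ) ^ N ≤ 1 / 2 := by
    calc (1 / 2 : ℝ) ^ N ≤ (1 / 2 : ℝ) ^ 1 := pow_le_pow_of_le_one (by norm_num) (by norm_num) h0
      _ = 1 / 2 := pow_one _
  have hm0 : m = 0 := by
    refine DIS_int ?_
    rw [← hm]
    refine (norm_add_le _ _).trans_lt ?_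
    have := hlt l
    linarith
  rw [hm0, Int.cast_zero] at hm
  have e : h l = -∑ S ∈ (Finset.univ : Finset (Finset (Fin N))).erase ∅,
      (-1 : ℂ) ^ S.card * h (l * ∏ i ∈ S, w i) := eq_neg_of_add_eq_zero_left hm
  rw [e, norm_neg]
  exact hE

theorem DIS (hAVE : AVE_stmt) : DIS_stmt := by
  intro A _ _ _ N n P h hn hP hsum hint hlt w hw l
  obtain ⟨m, hm⟩ := hint w hw l
  have h1 : ‖∑ S : Finset (Fin N), (-1 : ℂ) ^ S.card * h (l * ∏ i ∈ S, w i)‖ < 1 := by
    calc ‖∑ S : Finset (Fin N), (-1 : ℂ) ^ S.card * h (l * ∏ i ∈ S, w i)‖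
        ≤ ∑ S : Finset (Fin N), ‖h (l * ∏ i ∈ S, w i)‖ := by
          refine norm_sum_le_of_le _ fun S _ => ?_
          rw [norm_mul, norm_pow, norm_neg, norm_one, one_pow, one_mul]
      _ < ∑ _S : Finset (Fin N), (1 / 2 : ℝ) ^ N :=
          Finset.sum_lt_sum_of_nonempty ⟨∅, Finset.mem_univ _⟩
            fun S _ => DIS_small hAVE hn hP hsum hint hlt _
      _ = 1 := by
          rw [Finset.sum_const, Finset.card_univ, Fintype.card_finset, Fintype.card_fin, nsmul_eq_mul]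
          push_cast
          rw [← mul_pow]
          norm_num
  rw [hm] at h1 ⊢
  rw [DIS_int h1, Int.cast_zero]

end Pool.Agent.LE
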