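import Pool.Agent.helper12.LE.SpecB

/-!
# Row `le:KOR` (MP_baa4d7): orthogonality of the generalised decomposition numbers, summed with signs
-/

set_option autoImplicit false

namespace Pool.Agent.LE

open Pool.Agent.helper58.DC Pool.Agent.DI Pool.Agent.GR Pool.Agent.OB Pool.Agent.DR Pool.Agent.FI Pool.Agent.FI3 Pool.Agent.FI4 Pool.Agent.FI4C Pool.Agent.FI4B

theorem KOR_cz (G : Type) [Group G] : cz (⊥ : Subgroup G) = ⊤ := by
  rw [eq_top_iff]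
  intro x _
  rw [Subgroup.mem_centralizer_iff]
  intro y hy
  have h1 : y = 1 := Subgroup.mem_bot.1 hy
  rw [h1, one_mul, mul_one]

/-- the sum of the squares of combinations of orthogonal families; the index set may be infinite -/
theorem KOR_pure {X G : Type} (B : Set X) (A : Finset G) (d : X → G → ℂ) (ε : G → ℤ) (N : ℕ) (hN : N ≠ 0)
    (hε : ∀ u, ε u = 1 ∨ ε u = -1)
    (h1 : ∀ a ∈ A, ∑ᶠ ψ ∈ B, d ψ a * (starRingEnd ℂ) (d ψ a) = (N : ℂ))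
    (h0 : ∀ a ∈ A, ∀ b ∈ A, a ≠ b → ∑ᶠ ψ ∈ B, d ψ a * (starRingEnd ℂ) (d ψ b) = 0) :
    ∑ᶠ ψ ∈ B, ‖∑ a ∈ A, (ε a : ℂ) * d ψ a‖ ^ 2 = (A.card : ℝ) * N := by
  classical
  have hfin : ∀ a ∈ A, {ψ | ψ ∈ B ∧ d ψ a ≠ 0}.Finite := by
    intro a ha
    by_contra hinf
    have h2 : (B ∩ Function.support fun ψ => d ψ a * (starRingEnd ℂ) (d ψ a)).Infinite := by
      have e : B ∩ (Function.support fun ψ => d ψ a * (starRingEnd ℂ) (d ψ a)) = {ψ | ψ ∈ B ∧ d ψ a ≠ 0} := by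
        ext ψ
        simp [Function.mem_support]
      rw [e]
      exact hinf
    have h3 := finsum_mem_eq_zero_of_infinite h2
    rw [h1 a ha] at h3
    exact hN (by exact_mod_cast h3)
  have hS : (⋃ a ∈ A, {ψ | ψ ∈ B ∧ d ψ a ≠ 0}).Finite := A.finite_toSet.biUnion fun a ha => hfin a ha
  set F : Finset X := hS.toFinset with hF
  have hFB : ∀ ψ ∈ F, ψ ∈ B := by
    intro ψ hψ
    rw [hF, Set.Finite.mem_toFinset, Set.mem_iUnion₂] at hψ
    obtain ⟨a, _, h⟩ := hψ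
    exact h.1
  have hBF : ∀ ψ ∈ B, ∀ a ∈ A, d ψ a ≠ 0 → ψ ∈ F := by
    intro ψ hψ a ha h
    rw [hF, Set.Finite.mem_toFinset, Set.mem_iUnion₂]
    exact ⟨a, ha, hψ, h⟩
  have hs1 : ∑ᶠ ψ ∈ B, ‖∑ a ∈ A, (ε a : ℂ) * d ψ a‖ ^ 2 = ∑ ψ ∈ F, ‖∑ a ∈ A, (ε a : ℂ) * d ψ a‖ ^ 2 := by
    refine finsum_mem_eq_sum_of_inter_support_eq _ ?_
    ext ψ
    constructor
    · rintro ⟨h2, h3⟩
      refine ⟨?_, h3⟩
      have h4 : ∑ a ∈ A, (ε a : ℂ) * d ψ a ≠ 0 := by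
        intro h5
        rw [Function.mem_support, h5] at h3
        exact h3 (by norm_num)
      obtain ⟨a, ha, h5⟩ := Finset.exists_ne_zero_of_sum_ne_zero h4
      exact hBF ψ h2 a ha (right_ne_zero_of_mul h5)
    · rintro ⟨h2, h3⟩
      exact ⟨hFB ψ h2, h3⟩
  have hs2 : ∀ a ∈ A, ∀ b ∈ A, ∑ ψ ∈ F, d ψ a * (starRingEnd ℂ) (d ψ b) = if a = b then (N : ℂ) else 0 := by
    intro a ha b hb
    have h2 : ∑ᶠ ψ ∈ B, d ψ a * (starRingEnd ℂ) (d ψ b) = ∑ ψ ∈ F, d ψ a * (starRingEnd ℂ) (d ψ b) := by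
      refine finsum_mem_eq_sum_of_inter_support_eq _ ?_
      ext ψ
      constructor
      · rintro ⟨h2, h3⟩
        exact ⟨hBF ψ h2 a ha (left_ne_zero_of_mul h3), h3⟩
      · rintro ⟨h2, h3⟩
        exact ⟨hFB ψ h2, h3⟩
    rw [← h2]
    by_cases hab : a = b
    · rw [if_pos hab, ← hab]
      exact h1 a ha
    · rw [if_neg hab]
      exact h0 a ha b hb hab
  rw [hs1]
  have key : ((∑ ψ ∈ F, ‖∑ a ∈ A, (ε a : ℂ) * d ψ a‖ ^ 2 : ℝ) : ℂ) = (((A.card : ℝ) * N : ℝ) : ℂ) := by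
    have e1 : ∀ ψ, ((‖∑ a ∈ A, (ε a : ℂ) * d ψ a‖ ^ 2 : ℝ) : ℂ) =
        ∑ a ∈ A, ∑ b ∈ A, (ε a : ℂ) * (ε b : ℂ) * (d ψ a * (starRingEnd ℂ) (d ψ b)) := by
      intro ψ
      rw [← Complex.normSq_eq_norm_sq, ← Complex.mul_conj, map_sum, Finset.sum_mul_sum]
      refine Finset.sum_congr rfl fun a _ => Finset.sum_congr rfl fun b _ => ?_
      rw [map_mul, map_intCast]
      ring
    rw [Complex.ofReal_sum, Finset.sum_congr rfl fun ψ _ => e1 ψ, Finset.sum_comm]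
    have e2 : ∀ a ∈ A, ∑ ψ ∈ F, ∑ b ∈ A, (ε a : ℂ) * (ε b : ℂ) * (d ψ a * (starRingEnd ℂ) (d ψ b)) = (N : ℂ) := by
      intro a ha
      rw [Finset.sum_comm]
      have e3 : ∀ b ∈ A, ∑ ψ ∈ F, (ε a : ℂ) * (ε b : ℂ) * (d ψ a * (starRingEnd ℂ) (d ψ b)) =
          if a = b then (N : ℂ) else 0 := by
        intro b hb
        rw [← Finset.mul_sum, hs2 a ha b hb]
        by_cases hab : a = b
        · rw [if_pos hab, ← hab]
          rcases hε a with h | h <;> rw [h] <;> push_cast <;> ring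
        · rw [if_neg hab, mul_zero]
      rw [Finset.sum_congr rfl e3, Finset.sum_ite_eq, if_pos ha]
    rw [Finset.sum_congr rfl e2, Finset.sum_const, nsmul_eq_mul]
    push_cast
    rfl
  exact_mod_cast key

theorem KOR (hDOR : DOR4_stmt) (hGRG : GRG_stmt) : KOR_stmt := by
  intro p M hM hp G _ _ D x θ χ h ε hε A hA hc
  have hcz := KOR_cz G
  refine KOR_pure (Bl M (⊤ : Subgroup G) θ) A (fun ψ a => dd M (Cz (⊤ : Subgroup G) a) θ ψ a) ε (Nat.card D)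
    Nat.card_pos.ne' hε ?_ ?_
  · intro a ha
    have h3 := (hDOR p M hM G D x θ χ h ⊥ bot_le a (hA a ha).1 a (hA a ha).1
      (hGRG p M hM hp G D x θ χ h a (hA a ha)).2 (hGRG p M hM hp G D x θ χ h a (hA a ha)).2).2.1 rfl
    rw [hcz] at h3
    exact h3
  · intro a ha b hb hab
    have h3 := (hDOR p M hM G D x θ χ h ⊥ bot_le a (hA a ha).1 b (hA b hb).1
      (hGRG p M hM hp G D x θ χ h a (hA a ha)).2 (hGRG p M hM hp G D x θ χ h b (hA b hb)).2).2.2 (by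
        rintro ⟨t, ht, htu⟩
        exact hab (hc a ha b hb t ht.1 htu))
    rw [hcz] at h3
    exact h3

end Pool.Agent.LE
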