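import Pool.Agent.helper64.LE.ID

set_option autoImplicit false

open Finset Classical

namespace Pool.Agent.helper66.LE

section P

variable {V : Type}

variable [Fintype V] {q : ℝ} {E : Finset (Sym2 V)}

theorem SM_Phi_nonneg (h0 : 0 ≤ q) (h1 : q ≤ 1) (n : ℕ) (A : Set V) (v x : V) :
    0 ≤ Phi q E n A v x := by
  induction n generalizing A v x with
  | zero => exact Pr_nonneg h0 h1 _ _
  | succ n ih =>
    refine Finset.sum_nonneg fun u _ => Finset.sum_nonneg fun w _ => ?_
    split_ifs with h
    · refine mul_nonneg h0 (Ex_nonneg h0 h1 fun F _ => ?_)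
      split_ifs
      · exact ih _ _ _
      · exact le_refl 0
    · exact le_refl 0

theorem SM_Rem_nonneg (h0 : 0 ≤ q) (h1 : q ≤ 1) (n : ℕ) (A : Set V) (v x : V) :
    0 ≤ Rem q E n A v x := by
  induction n generalizing A v x with
  | zero => exact Pr_nonneg h0 h1 _ _
  | succ n ih =>
    refine Finset.sum_nonneg fun u _ => Finset.sum_nonneg fun w _ => ?_
    split_ifs with h
    · refine mul_nonneg h0 (Ex_nonneg h0 h1 fun F _ => ?_)
      split_ifs
      · exact ih _ _ _
      · exact le_refl 0
    · exact le_refl 0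

/-- the upper bound for the remainder -/
theorem SM_Rem_le (h0 : 0 ≤ q) (h1 : q ≤ 1) (n : ℕ) (A : Set V) (v x : V) :
    Rem q E (n + 1) A v x ≤ Fintype.card V * ∑ u, Phi q E n A v u := by
  induction n generalizing A v x with
  | zero =>
    have e : (Fintype.card V : ℝ) * ∑ u, Phi q E 0 A v u = ∑ u, ∑ w : V, Phi q E 0 A v u := by
      rw [Finset.mul_sum]
      refine Finset.sum_congr rfl fun u _ => ?_
      rw [Finset.sum_const, nsmul_eq_mul, Finset.card_univ]
    rw [e]
    refine Finset.sum_le_sum fun u _ => Finset.sum_le_sum fun w _ => ?_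
    split_ifs with h
    · have : Ex q E (fun F => if Epr F A v u then
          Rem q E 0 (clus (F.erase s(u, w)) v) w x else 0) ≤ Phi q E 0 A v u := by
        refine Ex_mono h0 h1 fun F _ => ?_
        split_ifs
        · exact Pr_le_one h0 h1 _ _
        · exact le_refl 0
      have h2 := SM_Phi_nonneg (E := E) h0 h1 0 A v u
      calc _ ≤ q * Phi q E 0 A v u := mul_le_mul_of_nonneg_left this h0
        _ ≤ 1 * Phi q E 0 A v u := mul_le_mul_of_nonneg_right h1 h2
        _ = _ := one_mul _
    · exact SM_Phi_nonneg h0 h1 0 A v u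
  | succ n ih =>
    have e : (Fintype.card V : ℝ) * ∑ u, Phi q E (n + 1) A v u =
        ∑ u', ∑ w, (if s(u', w) ∈ E then q * Ex q E (fun F => if Epr F A v u' then
          Fintype.card V * ∑ u, Phi q E n (clus (F.erase s(u', w)) v) w u else 0) else 0) := by
      have : ∀ u, Phi q E (n + 1) A v u = ∑ u', ∑ w, (if s(u', w) ∈ E then q * Ex q E (fun F =>
        if Epr F A v u' then Phi q E n (clus (F.erase s(u', w)) v) w u else 0) else 0) :=
        fun u => rfl
      simp only [this]
      rw [Finset.sum_comm, Finset.mul_sum]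
      refine Finset.sum_congr rfl fun u' _ => ?_
      rw [Finset.sum_comm, Finset.mul_sum]
      refine Finset.sum_congr rfl fun w _ => ?_
      split_ifs with h
      · rw [← Finset.mul_sum, ← Ex_sum, mul_left_comm, ← Ex_const_mul]
        congr 1
        refine Ex_congr fun F _ => ?_
        split_ifs with h'
        · rfl
        · simp
      · simp
    rw [e]
    refine Finset.sum_le_sum fun u _ => Finset.sum_le_sum fun w _ => ?_
    split_ifs with h
    · refine mul_le_mul_of_nonneg_left (Ex_mono h0 h1 fun F _ => ?_) h0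
      split_ifs
      · exact ih _ _ _
      · exact le_refl 0
    · exact le_refl 0

/-- the expansion with a remainder, one step -/
theorem SM_step (hE : ∀ u : V, s(u, u) ∉ E) (n : ℕ) (A : Set V) (v x : V) :
    Rem q E n A v x = Phi q E n A v x +
      ∑ u, ∑ w, (if s(u, w) ∈ E then q * Phi q E n A v u * t2 q E w x else 0) -
      Rem q E (n + 1) A v x := by
  induction n generalizing A v x with
  | zero => exact rem_zero_eq q E hE A v x
  | succ n ih =>
    have e1 : Rem q E (n + 1) A v x = ∑ u, ∑ w, (if s(u, w) ∈ E then q * Ex q E (fun F =>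
      if Epr F A v u then Rem q E n (clus (F.erase s(u, w)) v) w x else 0) else 0) := rfl
    have e2 : Phi q E (n + 1) A v x = ∑ u, ∑ w, (if s(u, w) ∈ E then q * Ex q E (fun F =>
      if Epr F A v u then Phi q E n (clus (F.erase s(u, w)) v) w x else 0) else 0) := rfl
    have e3 : Rem q E (n + 1 + 1) A v x = ∑ u, ∑ w, (if s(u, w) ∈ E then q * Ex q E (fun F =>
      if Epr F A v u then Rem q E (n + 1) (clus (F.erase s(u, w)) v) w x else 0) else 0) := rfl
    have e4 : ∑ u', ∑ w', (if s(u', w') ∈ E then q * Phi q E (n + 1) A v u' * t2 q E w' x else 0) =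
        ∑ u, ∑ w, (if s(u, w) ∈ E then q * Ex q E (fun F =>
          if Epr F A v u then ∑ u', ∑ w', (if s(u', w') ∈ E then
            q * Phi q E n (clus (F.erase s(u, w)) v) w u' * t2 q E w' x else 0) else 0) else 0) := by
      -- the right hand side with the sums exchanged
      have r1 : ∀ u w, (if s(u, w) ∈ E then q * Ex q E (fun F =>
          if Epr F A v u then ∑ u', ∑ w', (if s(u', w') ∈ E then
            q * Phi q E n (clus (F.erase s(u, w)) v) w u' * t2 q E w' x else 0) else 0) else 0) =
          ∑ u', ∑ w', (if s(u', w') ∈ E then q * (if s(u, w) ∈ E then q * Ex q E (fun F =>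
            if Epr F A v u then Phi q E n (clus (F.erase s(u, w)) v) w u' else 0) else 0) *
              t2 q E w' x else 0) := by
        intro u w
        split_ifs with h
        · have : Ex q E (fun F => if Epr F A v u then ∑ u', ∑ w', (if s(u', w') ∈ E then
              q * Phi q E n (clus (F.erase s(u, w)) v) w u' * t2 q E w' x else 0) else 0) =
              ∑ u', ∑ w', Ex q E (fun F => if Epr F A v u then (if s(u', w') ∈ E then
              q * Phi q E n (clus (F.erase s(u, w)) v) w u' * t2 q E w' x else 0) else 0) := by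
            simp only [← Ex_sum]
            refine Ex_congr fun F _ => ?_
            split_ifs with h'
            · rfl
            · simp
          rw [this, Finset.mul_sum]
          refine Finset.sum_congr rfl fun u' _ => ?_
          rw [Finset.mul_sum]
          refine Finset.sum_congr rfl fun w' _ => ?_
          split_ifs with h''
          · rw [← Ex_const_mul, ← Ex_const_mul, ← Ex_const_mul, ← Ex_mul_const]
            refine Ex_congr fun F _ => ?_
            split_ifs with h3
            · ring
            · ring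
          · rw [← Ex_const_mul]
            refine (Ex_congr (g := fun _ => (0 : ℝ)) fun F _ => ?_).trans (Ex_const _ _ _)
            split_ifs <;> simp
        · simp
      simp only [r1]
      calc _ = ∑ u', ∑ w', ∑ u, ∑ w, (if s(u', w') ∈ E then q * (if s(u, w) ∈ E then
              q * Ex q E (fun F => if Epr F A v u then
                Phi q E n (clus (F.erase s(u, w)) v) w u' else 0) else 0) *
              t2 q E w' x else 0) := by
            refine Finset.sum_congr rfl fun u' _ => Finset.sum_congr rfl fun w' _ => ?_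
            have : Phi q E (n + 1) A v u' = ∑ u, ∑ w, (if s(u, w) ∈ E then q * Ex q E (fun F =>
              if Epr F A v u then Phi q E n (clus (F.erase s(u, w)) v) w u' else 0) else 0) := rfl
            rw [this]
            split_ifs with h
            · rw [Finset.mul_sum, Finset.sum_mul]
              refine Finset.sum_congr rfl fun u _ => ?_
              rw [Finset.mul_sum, Finset.sum_mul]
            · simp
        _ = ∑ u', ∑ u, ∑ w', ∑ w, _ := Finset.sum_congr rfl fun u' _ => Finset.sum_comm
        _ = ∑ u, ∑ u', ∑ w', ∑ w, _ := Finset.sum_comm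
        _ = ∑ u, ∑ u', ∑ w, ∑ w', _ := Finset.sum_congr rfl fun u _ =>
            Finset.sum_congr rfl fun u' _ => Finset.sum_comm
        _ = _ := Finset.sum_congr rfl fun u _ => Finset.sum_comm
    rw [e4]
    rw [e1, e2, e3, ← Finset.sum_add_distrib, ← Finset.sum_sub_distrib]
    refine Finset.sum_congr rfl fun u _ => ?_
    rw [← Finset.sum_add_distrib, ← Finset.sum_sub_distrib]
    refine Finset.sum_congr rfl fun w _ => ?_
    split_ifs with h
    · rw [← mul_add, ← mul_sub, ← Ex_add, ← Ex_sub]
      congr 1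
      refine Ex_congr fun F _ => ?_
      split_ifs with h'
      · exact ih _ _ _
      · simp
    · simp

/-- the finite expansion -/
theorem SM_finite (hE : ∀ u : V, s(u, u) ∉ E) (A : Set V) (v x : V) (N : ℕ) :
    Rem q E 0 A v x = ∑ n ∈ Finset.range N, (-1 : ℝ) ^ n * Phi q E n A v x +
      ∑ u, ∑ w, (if s(u, w) ∈ E then q * (∑ n ∈ Finset.range N, (-1 : ℝ) ^ n * Phi q E n A v u) *
        t2 q E w x else 0) + (-1 : ℝ) ^ N * Rem q E N A v x := by
  induction N with
  | zero => simp
  | succ N ih =>
    rw [ih, SM_step hE N A v x]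
    simp only [Finset.sum_range_succ]
    have gen : ∀ (f g : V → ℝ) (c : ℝ), ∑ u, ∑ w, (if s(u, w) ∈ E then
        q * (f u + c * g u) * t2 q E w x else 0) =
        ∑ u, ∑ w, (if s(u, w) ∈ E then q * f u * t2 q E w x else 0) +
        c * ∑ u, ∑ w, (if s(u, w) ∈ E then q * g u * t2 q E w x else 0) := by
      intro f g c
      rw [Finset.mul_sum, ← Finset.sum_add_distrib]
      refine Finset.sum_congr rfl fun u _ => ?_
      rw [Finset.mul_sum, ← Finset.sum_add_distrib]
      refine Finset.sum_congr rfl fun w _ => ?_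
      split_ifs with h
      · ring
      · simp
    rw [gen (fun u => ∑ n ∈ Finset.range N, (-1 : ℝ) ^ n * Phi q E n A v u)
      (fun u => Phi q E N A v u), pow_succ]
    ring

/-- SM (from ID): the lace expansion -/
theorem lace_eq (q : ℝ) (h0 : 0 ≤ q) (h1 : q ≤ 1) (E : Finset (Sym2 V))
    (hE : ∀ u : V, s(u, u) ∉ E) (o : V) (C r : ℝ) (hr0 : 0 ≤ r) (hr1 : r < 1)
    (hPhi : ∀ n, ∑ x, Phi q E n {o} o x ≤ C * r ^ n) :
    (∀ x, Summable fun n : ℕ => (-1 : ℝ) ^ n * Phi q E n {o} o x) ∧
    ∀ x, t2 q E o x = NN q E o x +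
      ∑ u, ∑ w, (if s(u, w) ∈ E then q * NN q E o u * t2 q E w x else 0) := by
  have hgeo : Summable fun n : ℕ => C * r ^ n := (summable_geometric_of_lt_one hr0 hr1).mul_left C
  have hsum : ∀ x, Summable fun n : ℕ => (-1 : ℝ) ^ n * Phi q E n {o} o x := by
    intro x
    refine Summable.of_norm_bounded hgeo fun n => ?_
    rw [norm_mul, norm_pow, norm_neg, norm_one, one_pow, one_mul, Real.norm_eq_abs,
      abs_of_nonneg (SM_Phi_nonneg h0 h1 n {o} o x)]
    refine le_trans ?_ (hPhi n)
    exact Finset.single_le_sum (f := fun x => Phi q E n {o} o x)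
      (fun x _ => SM_Phi_nonneg h0 h1 n {o} o x) (Finset.mem_univ x)
  refine ⟨hsum, fun x => ?_⟩
  have ht : t2 q E o x = Rem q E 0 {o} o x := Pr_congr fun F _ => thr_self_iff.symm
  have hS : ∀ y, Filter.Tendsto (fun N => ∑ n ∈ Finset.range N, (-1 : ℝ) ^ n * Phi q E n {o} o y)
      Filter.atTop (nhds (NN q E o y)) := fun y => (hsum y).hasSum.tendsto_sum_nat
  have hR : Filter.Tendsto (fun N : ℕ => (-1 : ℝ) ^ (N + 1) * Rem q E (N + 1) {o} o x)
      Filter.atTop (nhds 0) := by
    have hz : Filter.Tendsto (fun N : ℕ => (Fintype.card V : ℝ) * (C * r ^ N))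
        Filter.atTop (nhds 0) := by
      have := (tendsto_pow_atTop_nhds_zero_of_lt_one hr0 hr1).const_mul ((Fintype.card V : ℝ) * C)
      rw [mul_zero] at this
      refine this.congr fun N => ?_
      ring
    refine squeeze_zero_norm (fun N => ?_) hz
    rw [norm_mul, norm_pow, norm_neg, norm_one, one_pow, one_mul, Real.norm_eq_abs,
      abs_of_nonneg (SM_Rem_nonneg h0 h1 _ _ _ _)]
    exact (SM_Rem_le h0 h1 N {o} o x).trans
      (mul_le_mul_of_nonneg_left (hPhi N) (Nat.cast_nonneg _))
  have hL : Filter.Tendsto (fun N : ℕ => (∑ n ∈ Finset.range (N + 1), (-1 : ℝ) ^ n *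
      Phi q E n {o} o x) + (∑ u, ∑ w, (if s(u, w) ∈ E then
        q * (∑ n ∈ Finset.range (N + 1), (-1 : ℝ) ^ n * Phi q E n {o} o u) *
        t2 q E w x else 0)) + (-1 : ℝ) ^ (N + 1) * Rem q E (N + 1) {o} o x) Filter.atTop
      (nhds (NN q E o x + (∑ u, ∑ w, (if s(u, w) ∈ E then q * NN q E o u * t2 q E w x else 0)) +
        0)) := by
    refine Filter.Tendsto.add (Filter.Tendsto.add ((Filter.tendsto_add_atTop_iff_nat 1).2 (hS x))
      ?_) hR
    refine tendsto_finsetSum _ fun u _ => tendsto_finsetSum _ fun w _ => ?_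
    split_ifs with h
    · exact (((Filter.tendsto_add_atTop_iff_nat 1).2 (hS u)).const_mul q).mul_const _
    · exact tendsto_const_nhds
  have hc : (fun N : ℕ => (∑ n ∈ Finset.range (N + 1), (-1 : ℝ) ^ n *
      Phi q E n {o} o x) + (∑ u, ∑ w, (if s(u, w) ∈ E then
        q * (∑ n ∈ Finset.range (N + 1), (-1 : ℝ) ^ n * Phi q E n {o} o u) *
        t2 q E w x else 0)) + (-1 : ℝ) ^ (N + 1) * Rem q E (N + 1) {o} o x) =
      fun _ => t2 q E o x := by
    funext N
    rw [ht]
    exact (SM_finite hE {o} o x (N + 1)).symm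
  rw [hc] at hL
  have := tendsto_nhds_unique hL tendsto_const_nhds
  rw [add_zero] at this
  exact this.symm

end P

end Pool.Agent.helper66.LE
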